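import Pool.Agent.P8H19.QC.Loc

set_option autoImplicit false
set_option linter.unusedSectionVars false
set_option linter.unnecessarySimpa false

namespace Pool.Agent.P8H19.QC

open Finset

namespace Loc

variable {K L : Type*} [Field K] [Field L] [CharZero K] [CharZero L] {q : K} {ζ : L} {n : ℕ}
  (S : Loc q ζ n)

/-- The truncated exponential-type polynomial. -/
def Pol (ε b g e : K) (t : ℤ) : K := 1 + ε * b * t + ε ^ 2 * g * t ^ 2 + ε ^ 3 * e * t ^ 3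

/-- expansion of `φ` modulo `ε^4`, with cumulant residue `z`. -/
def Ex (φ : ℤ → K) (z : L) : Prop :=
  ∃ b g e : K, b ∈ S.O ∧ g ∈ S.O ∧ e ∈ S.O ∧ S.Rs (e - b * g + b ^ 3 / 3) z ∧
    ∀ t : ℤ, S.D 4 (φ t - Pol (q ^ n - 1) b g e t)

variable {S}

theorem Rs_ofNat (m : ℕ) [m.AtLeastTwo] : S.Rs (OfNat.ofNat m : K) (OfNat.ofNat m : L) := by
  have := S.Rs_nat (OfNat.ofNat m)
  exact this.of_eq (by simp) (by simp)

theorem inv_nat_mem (m : ℕ) (hm : m ≠ 0) : ((m : K))⁻¹ ∈ S.O :=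
  ((S.Rs_nat m).inv (by exact_mod_cast hm)).mem

theorem int_mem (t : ℤ) : (t : K) ∈ S.O := by
  obtain ⟨m, rfl | rfl⟩ := t.eq_nat_or_neg
  · simpa using (S.Rs_nat m).mem
  · simpa using S.O.neg_mem (S.Rs_nat m).mem

theorem binom_exp (hq : q ≠ 0) (hζ0 : ζ ≠ 0) (hζ : ζ ^ n = 1) (t : ℤ) :
    S.D 4 (q ^ ((n : ℤ) * t) - (1 + t * (q ^ n - 1) + ((t : K) ^ 2 - t) / 2 * (q ^ n - 1) ^ 2 +
      ((t : K) ^ 3 - 3 * t ^ 2 + 2 * t) / 6 * (q ^ n - 1) ^ 3)) := by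
  have h6 : ∀ t : ℤ, (((t : K) ^ 3 - 3 * t ^ 2 + 2 * t) / 6) ∈ S.O := by
    intro t
    rw [div_eq_mul_inv]
    apply S.O.mul_mem
    · have h : ((t ^ 3 - 3 * t ^ 2 + 2 * t : ℤ) : K) ∈ S.O := int_mem _
      simpa using h
    · have := inv_nat_mem (S := S) 6 (by norm_num)
      simpa using this
  induction t using Int.induction_on with
  | zero => simpa using S.D_zero 4
  | succ i ih =>
    have e1 : q ^ ((n : ℤ) * ((i : ℤ) + 1)) = q ^ ((n : ℤ) * i) * q ^ n := by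
      rw [mul_add, mul_one, zpow_add₀ hq, zpow_natCast]
    have h1 := ih.mul_mem (S.O.pow_mem S.hq n)
    have h2 := (S.D_eps 4).mul_mem (h6 i)
    refine (h1.add h2).of_eq ?_
    rw [e1]
    push_cast
    field_simp
    ring
  | pred i ih =>
    have e1 : q ^ ((n : ℤ) * (-(i : ℤ) - 1)) = q ^ ((n : ℤ) * (-(i : ℤ))) * (q ^ n)⁻¹ := by
      rw [mul_sub, mul_one, zpow_sub₀ hq, zpow_natCast, div_eq_mul_inv]
    have h0 : (q ^ n)⁻¹ ∈ S.O := ((S.Rs_q.pow n).inv (pow_ne_zero _ hζ0)).mem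
    have hqn : q ^ n ≠ 0 := pow_ne_zero _ hq
    have h2 := (S.D_eps 4).mul_mem (h6 (-(i : ℤ) - 1))
    refine ((ih.sub h2).mul_mem h0).of_eq ?_
    rw [e1]
    push_cast
    field_simp
    ring

theorem Ex_lin (hq : q ≠ 0) (hζ0 : ζ ≠ 0) (hζ : ζ ^ n = 1) {w : K} {z : L} (hw : S.Rs w z) :
    S.Ex (fun t => 1 + w * (q ^ ((n : ℤ) * t) - 1)) (z / 6 - z ^ 2 / 2 + z ^ 3 / 3) := by
  set ε := q ^ n - 1 with hε
  have r2 : S.Rs ((2 : K)⁻¹) ((2 : L)⁻¹) := (Rs_ofNat 2).inv (by norm_num)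
  have r3 : S.Rs ((3 : K)⁻¹) ((3 : L)⁻¹) := (Rs_ofNat 3).inv (by norm_num)
  have r6 : S.Rs ((6 : K)⁻¹) ((6 : L)⁻¹) := (Rs_ofNat 6).inv (by norm_num)
  have re : S.Rs ε 0 := Rs_eps hζ
  have hb : S.Rs (w * (1 - ε * 2⁻¹ + ε ^ 2 * 3⁻¹)) (z * (1 - 0 * 2⁻¹ + 0 ^ 2 * 3⁻¹)) :=
    hw.mul ((S.Rs_one.sub (re.mul r2)).add ((re.pow 2).mul r3))
  have hg : S.Rs (w * (2⁻¹ - ε * 2⁻¹)) (z * (2⁻¹ - 0 * 2⁻¹)) := hw.mul (r2.sub (re.mul r2))
  have he : S.Rs (w * 6⁻¹) (z * 6⁻¹) := hw.mul r6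
  refine ⟨_, _, _, hb.mem, hg.mem, he.mem, ?_, ?_⟩
  · have h1 := (he.sub (hb.mul hg)).add ((hb.pow 3).mul r3)
    refine h1.of_eq ?_ ?_
    · rw [div_eq_mul_inv]
    · ring
  · intro t
    have h := (binom_exp (S := S) hq hζ0 hζ t).mem_mul hw.mem
    refine h.of_eq ?_
    unfold Pol
    rw [← hε]
    ring

theorem Ex.one : S.Ex (fun _ => 1) 0 := by
  refine ⟨0, 0, 0, S.O.zero_mem, S.O.zero_mem, S.O.zero_mem, ?_, ?_⟩
  · simpa using S.Rs_zero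
  · intro t
    simpa [Pol] using S.D_zero 4

theorem Pol_mem {b g e : K} (hb : b ∈ S.O) (hg : g ∈ S.O) (he : e ∈ S.O) (t : ℤ) :
    Pol (q ^ n - 1) b g e t ∈ S.O := by
  unfold Pol
  have := S.eps_mem
  have ht := int_mem (S := S) t
  exact S.O.add_mem (S.O.add_mem (S.O.add_mem S.O.one_mem (S.O.mul_mem (S.O.mul_mem this hb) ht))
    (S.O.mul_mem (S.O.mul_mem (S.O.pow_mem this _) hg) (S.O.pow_mem ht _)))
    (S.O.mul_mem (S.O.mul_mem (S.O.pow_mem this _) he) (S.O.pow_mem ht _))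

theorem Ex.Rs_one' (hζ : ζ ^ n = 1) {φ : ℤ → K} {z : L} (h : S.Ex φ z) (t : ℤ) :
    S.Rs (φ t) 1 := by
  obtain ⟨b, g, e, hb, hg, he, -, h4⟩ := h
  have h5 := h4 t
  have h6 : S.Rs (φ t - Pol (q ^ n - 1) b g e t) 0 := (h5.mono (by norm_num)).Rs hζ
  have h7 : S.D 1 (Pol (q ^ n - 1) b g e t - 1) := by
    have ht := int_mem (S := S) t
    have hm : b * t + (q ^ n - 1) * g * t ^ 2 + (q ^ n - 1) ^ 2 * e * t ^ 3 ∈ S.O :=
      S.O.add_mem (S.O.add_mem (S.O.mul_mem hb ht)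
        (S.O.mul_mem (S.O.mul_mem S.eps_mem hg) (S.O.pow_mem ht _)))
        (S.O.mul_mem (S.O.mul_mem (S.O.pow_mem S.eps_mem _) he) (S.O.pow_mem ht _))
    refine ⟨_, hm, ?_⟩
    unfold Pol; ring
  exact ((h6.add (h7.Rs hζ)).add S.Rs_one).of_eq (by ring) (by ring)

theorem Ex.mul {φ φ' : ℤ → K} {z z' : L} (h : S.Ex φ z) (h' : S.Ex φ' z') :
    S.Ex (fun t => φ t * φ' t) (z + z') := by
  obtain ⟨b, g, e, hb, hg, he, hz, h4⟩ := h
  obtain ⟨b', g', e', hb', hg', he', hz', h4'⟩ := h'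
  have O := S.O
  refine ⟨b + b', g + g' + b * b', e + e' + b * g' + g * b', S.O.add_mem hb hb',
    S.O.add_mem (S.O.add_mem hg hg') (S.O.mul_mem hb hb'),
    S.O.add_mem (S.O.add_mem (S.O.add_mem he he') (S.O.mul_mem hb hg')) (S.O.mul_mem hg hb'), ?_, ?_⟩
  · exact (hz.add hz').of_eq (by ring) rfl
  · intro t
    have hp := Pol_mem hb hg he t
    have hφ' : φ' t ∈ S.O := by
      have := S.O.add_mem (h4' t).mem (Pol_mem hb' hg' he' t)
      simpa using this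
    have ht := int_mem (S := S) t
    have h1 := (h4 t).mul_mem hφ'
    have h2 := (h4' t).mem_mul hp
    have hc : t ^ 4 * (b * e' + g * g' + e * b') + (q ^ n - 1) * t ^ 5 * (g * e' + e * g') +
        (q ^ n - 1) ^ 2 * t ^ 6 * (e * e') ∈ S.O :=
      S.O.add_mem (S.O.add_mem (S.O.mul_mem (S.O.pow_mem ht _)
        (S.O.add_mem (S.O.add_mem (S.O.mul_mem hb he') (S.O.mul_mem hg hg')) (S.O.mul_mem he hb')))
        (S.O.mul_mem (S.O.mul_mem S.eps_mem (S.O.pow_mem ht _))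
          (S.O.add_mem (S.O.mul_mem hg he') (S.O.mul_mem he hg'))))
        (S.O.mul_mem (S.O.mul_mem (S.O.pow_mem S.eps_mem _) (S.O.pow_mem ht _))
          (S.O.mul_mem he he'))
    have h3 := (S.D_eps 4).mul_mem hc
    refine ((h1.add h2).add h3).of_eq ?_
    unfold Pol
    ring

theorem Ex.inv (hζ : ζ ^ n = 1) {φ : ℤ → K} {z : L} (h : S.Ex φ z) :
    S.Ex (fun t => (φ t)⁻¹) (-z) := by
  have h0 := h.Rs_one' hζ
  obtain ⟨b, g, e, hb, hg, he, hz, h4⟩ := h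
  have h2m : (2 : K) ∈ S.O := (Rs_ofNat (S := S) 2).mem
  have hg' : -g + b ^ 2 ∈ S.O := S.O.add_mem (S.O.neg_mem hg) (S.O.pow_mem hb _)
  have he' : -e + 2 * b * g - b ^ 3 ∈ S.O :=
    S.O.sub_mem (S.O.add_mem (S.O.neg_mem he) (S.O.mul_mem (S.O.mul_mem h2m hb) hg))
      (S.O.pow_mem hb _)
  refine ⟨-b, -g + b ^ 2, -e + 2 * b * g - b ^ 3, S.O.neg_mem hb, hg', he', ?_, ?_⟩
  · exact hz.neg.of_eq (by ring) rfl
  · intro t
    have ht := int_mem (S := S) t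
    have hφ := (h0 t).ne one_ne_zero
    have hφi := ((h0 t).inv one_ne_zero).mem
    have hp' := Pol_mem (S.O.neg_mem hb) hg' he' t
    have h1 := (h4 t).neg.mul_mem hp'
    have hc : t ^ 4 * (b * (-e + 2 * b * g - b ^ 3) + g * (-g + b ^ 2) + e * -b) +
        (q ^ n - 1) * t ^ 5 * (g * (-e + 2 * b * g - b ^ 3) + e * (-g + b ^ 2)) +
        (q ^ n - 1) ^ 2 * t ^ 6 * (e * (-e + 2 * b * g - b ^ 3)) ∈ S.O :=
      S.O.add_mem (S.O.add_mem (S.O.mul_mem (S.O.pow_mem ht _)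
        (S.O.add_mem (S.O.add_mem (S.O.mul_mem hb he') (S.O.mul_mem hg hg'))
          (S.O.mul_mem he (S.O.neg_mem hb))))
        (S.O.mul_mem (S.O.mul_mem S.eps_mem (S.O.pow_mem ht _))
          (S.O.add_mem (S.O.mul_mem hg he') (S.O.mul_mem he hg'))))
        (S.O.mul_mem (S.O.mul_mem (S.O.pow_mem S.eps_mem _) (S.O.pow_mem ht _))
          (S.O.mul_mem he he'))
    have h3 := (S.D_eps 4).mul_mem hc
    refine ((h1.sub h3).mul_mem hφi).of_eq ?_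
    have : (φ t)⁻¹ - Pol (q ^ n - 1) (-b) (-g + b ^ 2) (-e + 2 * b * g - b ^ 3) t =
        (1 - φ t * Pol (q ^ n - 1) (-b) (-g + b ^ 2) (-e + 2 * b * g - b ^ 3) t) * (φ t)⁻¹ := by
      field_simp
    rw [this]
    congr 1
    unfold Pol
    ring

theorem Ex.prod_range {φ : ℕ → ℤ → K} {z : ℕ → L} (k : ℕ)
    (h : ∀ j < k, S.Ex (φ j) (z j)) :
    S.Ex (fun t => ∏ j ∈ range k, φ j t) (∑ j ∈ range k, z j) := by
  induction k with
  | zero => simpa using Ex.one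
  | succ k ih =>
    simp only [prod_range_succ, sum_range_succ]
    exact (ih fun j hj => h j (by omega)).mul (h k (by omega))

/-- The cumulant expansion for a list of parameters. -/
theorem Ex_list {φ : ℤ → K} {b g e : K} (hb : b ∈ S.O) (hg : g ∈ S.O) (he : e ∈ S.O)
    (h4 : ∀ t : ℤ, S.D 4 (φ t - Pol (q ^ n - 1) b g e t)) (l : List ℤ) :
    S.D 4 ((l.map φ).prod - (1 + (q ^ n - 1) * (b * (l.sum : ℤ)) +
      (q ^ n - 1) ^ 2 * ((g - b ^ 2 / 2) * ((l.map (fun t : ℤ => t ^ 2)).sum : ℤ) +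
        b ^ 2 * (l.sum : ℤ) ^ 2 / 2) +
      (q ^ n - 1) ^ 3 * ((e - b * g + b ^ 3 / 3) * ((l.map (fun t : ℤ => t ^ 3)).sum : ℤ) +
        b * (g - b ^ 2 / 2) * (l.sum : ℤ) * ((l.map (fun t : ℤ => t ^ 2)).sum : ℤ) +
        b ^ 3 * (l.sum : ℤ) ^ 3 / 6))) := by
  have h2 : (2 : K)⁻¹ ∈ S.O := ((Rs_ofNat (S := S) 2).inv (by norm_num)).mem
  have h3 : (3 : K)⁻¹ ∈ S.O := ((Rs_ofNat (S := S) 3).inv (by norm_num)).mem
  have h6 : (6 : K)⁻¹ ∈ S.O := ((Rs_ofNat (S := S) 6).inv (by norm_num)).mem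
  induction l with
  | nil =>
    refine (S.D_zero 4).of_eq ?_
    simp
  | cons t l ih =>
    set P1 : ℤ := l.sum with hP1
    set P2 : ℤ := (l.map (fun t : ℤ => t ^ 2)).sum with hP2
    set P3 : ℤ := (l.map (fun t : ℤ => t ^ 3)).sum with hP3
    have m1 := int_mem (S := S) P1
    have m2 := int_mem (S := S) P2
    have m3 := int_mem (S := S) P3
    have ht := int_mem (S := S) t
    set A1 : K := b * P1 with hA1
    set A2 : K := (g - b ^ 2 / 2) * P2 + b ^ 2 * P1 ^ 2 / 2 with hA2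
    set A3 : K := (e - b * g + b ^ 3 / 3) * P3 + b * (g - b ^ 2 / 2) * P1 * P2 +
      b ^ 3 * P1 ^ 3 / 6 with hA3
    have a1 : A1 ∈ S.O := S.O.mul_mem hb m1
    have hgb : g - b ^ 2 / 2 ∈ S.O := by
      rw [div_eq_mul_inv]; exact S.O.sub_mem hg (S.O.mul_mem (S.O.pow_mem hb _) h2)
    have a2 : A2 ∈ S.O := by
      rw [hA2, div_eq_mul_inv (b ^ 2 * (P1 : K) ^ 2)]
      exact S.O.add_mem (S.O.mul_mem hgb m2)
        (S.O.mul_mem (S.O.mul_mem (S.O.pow_mem hb _) (S.O.pow_mem m1 _)) h2)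
    have a3 : A3 ∈ S.O := by
      rw [hA3, div_eq_mul_inv (b ^ 3), div_eq_mul_inv (b ^ 3 * (P1 : K) ^ 3)]
      refine S.O.add_mem (S.O.add_mem (S.O.mul_mem (S.O.add_mem (S.O.sub_mem he (S.O.mul_mem hb hg))
        (S.O.mul_mem (S.O.pow_mem hb _) h3)) m3) ?_) ?_
      · exact S.O.mul_mem (S.O.mul_mem (S.O.mul_mem hb hgb) m1) m2
      · exact S.O.mul_mem (S.O.mul_mem (S.O.pow_mem hb _) (S.O.pow_mem m1 _)) h6
    set ε := q ^ n - 1 with hε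
    have hεm : ε ∈ S.O := S.eps_mem
    have hl : (l.map φ).prod ∈ S.O := by
      have := S.O.add_mem ih.mem (S.O.add_mem (S.O.add_mem (S.O.add_mem S.O.one_mem
        (S.O.mul_mem hεm a1)) (S.O.mul_mem (S.O.pow_mem hεm 2) a2))
        (S.O.mul_mem (S.O.pow_mem hεm 3) a3))
      simpa using this
    have hc : (A1 * (e * t ^ 3) + A2 * (g * t ^ 2) + A3 * (b * t)) +
        ε * (A2 * (e * t ^ 3) + A3 * (g * t ^ 2)) + ε ^ 2 * (A3 * (e * t ^ 3)) ∈ S.O := by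
      have t3 : e * (t : K) ^ 3 ∈ S.O := S.O.mul_mem he (S.O.pow_mem ht _)
      have t2 : g * (t : K) ^ 2 ∈ S.O := S.O.mul_mem hg (S.O.pow_mem ht _)
      have t1 : b * (t : K) ∈ S.O := S.O.mul_mem hb ht
      exact S.O.add_mem (S.O.add_mem (S.O.add_mem (S.O.add_mem (S.O.mul_mem a1 t3)
        (S.O.mul_mem a2 t2)) (S.O.mul_mem a3 t1))
        (S.O.mul_mem hεm (S.O.add_mem (S.O.mul_mem a2 t3) (S.O.mul_mem a3 t2))))
        (S.O.mul_mem (S.O.pow_mem hεm _) (S.O.mul_mem a3 t3))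
    have k1 := (h4 t).mul_mem hl
    have k2 := ih.mem_mul (Pol_mem hb hg he t)
    have k3 := (S.D_eps 4).mul_mem hc
    refine ((k1.add k2).add k3).of_eq ?_
    rw [List.map_cons, List.prod_cons, List.sum_cons, List.map_cons, List.sum_cons,
      List.map_cons, List.sum_cons, ← hP1, ← hP2, ← hP3, ← hε]
    unfold Pol
    push_cast
    rw [hA1, hA2, hA3]
    ring

end Loc

end Pool.Agent.P8H19.QC
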