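import Pool.Agent.P8H19.QC.Van
import Pool.Agent.P8H19.QC.Exp

set_option autoImplicit false
set_option linter.unusedSectionVars false

namespace Pool.Agent.P8H19.QC

open Finset

namespace Loc

variable {K L : Type*} [Field K] [Field L] [CharZero K] [CharZero L] {q : K} {ζ : L} {n : ℕ}
  {S : Loc q ζ n}

theorem Ex.cum {φ : ℤ → K} {z : L} (h : S.Ex φ z) :
    ∃ y w : K, y ∈ S.O ∧ S.Rs w z ∧ ∀ l : List ℤ, l.sum = 0 →
      S.D 4 ((l.map φ).prod - (1 + (q ^ n - 1) ^ 2 * (y * ((l.map (fun t : ℤ => t ^ 2)).sum : ℤ)) +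
        (q ^ n - 1) ^ 3 * (w * ((l.map (fun t : ℤ => t ^ 3)).sum : ℤ)))) := by
  obtain ⟨b, g, e, hb, hg, he, hz, h4⟩ := h
  have h2 : (2 : K)⁻¹ ∈ S.O := ((Rs_ofNat (S := S) 2).inv (by norm_num)).mem
  refine ⟨g - b ^ 2 / 2, e - b * g + b ^ 3 / 3, ?_, hz, ?_⟩
  · rw [div_eq_mul_inv]; exact S.O.sub_mem hg (S.O.mul_mem (S.O.pow_mem hb _) h2)
  · intro l hl
    have := Ex_list hb hg he h4 l
    rw [hl] at this
    refine this.of_eq ?_
    push_cast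
    ring

/-- the third cumulant of a linear factor -/
def cu (z : L) : L := z / 6 - z ^ 2 / 2 + z ^ 3 / 3

/-- the value of `F 0 k` at the root of unity -/
def al (ζ : L) (d : ℤ) (k : ℕ) : L := ∏ j ∈ range k, (1 - ζ ^ (1 + d * j)) / (1 - ζ ^ (d * (j + 1)))

/-- the residue of the third cumulant -/
def cs (ζ : L) (d : ℤ) (k : ℕ) : L :=
  ∑ j ∈ range k, (cu (-ζ ^ (1 + d * j) / (1 - ζ ^ (1 + d * j))) + -cu (1 / (1 - ζ ^ (d * (j + 1)))))

theorem one_sub_ne (hζ : IsPrimitiveRoot ζ n) {e : ℤ} (he : ¬ (n : ℤ) ∣ e) : 1 - ζ ^ e ≠ 0 := by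
  intro h
  exact he ((hζ.zpow_eq_one_iff_dvd e).1 (sub_eq_zero.1 h).symm)

theorem Rs_ps (hζ : IsPrimitiveRoot ζ n) (hn : n ≠ 0) (e : ℤ) : S.Rs (ps q e) (1 - ζ ^ e) :=
  S.Rs_one.sub (S.Rs_zpow (hζ.ne_zero hn) e)

theorem F_zero_eq (d : ℤ) (k : ℕ) :
    F q d n 0 k = ∏ j ∈ range k, ps q (1 + d * j) / ps q (d * (j + 1)) := by
  unfold F
  apply prod_congr rfl
  intro j _
  simp [ps]

theorem Rs_F0 (hζ : IsPrimitiveRoot ζ n) (hn : n ≠ 0) {d : ℤ} {k : ℕ}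
    (h2 : ∀ j : ℕ, j < k → ¬ (n : ℤ) ∣ d * (j + 1)) :
    S.Rs (F q d n 0 k) (al ζ d k) := by
  rw [F_zero_eq]
  unfold al
  apply Rs.prod
  intro j hj
  exact (Rs_ps hζ hn _).div (Rs_ps hζ hn _) (one_sub_ne hζ (h2 j (mem_range.1 hj)))

theorem al_ne (hζ : IsPrimitiveRoot ζ n) {d : ℤ} {k : ℕ}
    (h1 : ∀ j : ℕ, j < k → ¬ (n : ℤ) ∣ 1 + d * j)
    (h2 : ∀ j : ℕ, j < k → ¬ (n : ℤ) ∣ d * (j + 1)) : al ζ d k ≠ 0 := by
  unfold al
  apply prod_ne_zero_iff.2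
  intro j hj
  exact div_ne_zero (one_sub_ne hζ (h1 j (mem_range.1 hj))) (one_sub_ne hζ (h2 j (mem_range.1 hj)))

theorem Ex_F (hq : q ≠ 0) (hζ : IsPrimitiveRoot ζ n) (hn : n ≠ 0) {d : ℤ} {k : ℕ}
    (h1 : ∀ j : ℕ, j < k → ¬ (n : ℤ) ∣ 1 + d * j)
    (h2 : ∀ j : ℕ, j < k → ¬ (n : ℤ) ∣ d * (j + 1)) :
    S.Ex (fun t => F q d n t k / F q d n 0 k) (cs ζ d k) := by
  have hζ0 := hζ.ne_zero hn
  have hζn := hζ.pow_eq_one
  have key : (fun t : ℤ => F q d n t k / F q d n 0 k) = fun t => ∏ j ∈ range k,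
      ((1 + (-q ^ (1 + d * (j : ℤ)) / ps q (1 + d * j)) * (q ^ ((n : ℤ) * t) - 1)) *
        (1 + (1 / ps q (d * ((j : ℤ) + 1))) * (q ^ ((n : ℤ) * t) - 1))⁻¹) := by
    funext t
    rw [F_zero_eq]
    unfold F
    rw [← prod_div_distrib]
    apply prod_congr rfl
    intro j hj
    have hj' := mem_range.1 hj
    have e1 : ps q (1 + d * j) ≠ 0 := (Rs_ps (S := S) hζ hn _).ne (one_sub_ne hζ (h1 j hj'))
    have e2 : ps q (d * (j + 1)) ≠ 0 := (Rs_ps (S := S) hζ hn _).ne (one_sub_ne hζ (h2 j hj'))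
    have e3 : 1 + (-q ^ (1 + d * (j : ℤ)) / ps q (1 + d * j)) * (q ^ ((n : ℤ) * t) - 1) =
        ps q (1 + d * j + n * t) / ps q (1 + d * j) := by
      rw [eq_div_iff e1]
      field_simp
      unfold ps
      rw [zpow_add₀ hq (1 + d * j) (n * t)]
      ring
    have e4 : 1 + (1 / ps q (d * ((j : ℤ) + 1))) * (q ^ ((n : ℤ) * t) - 1) =
        (q ^ ((n : ℤ) * t) - q ^ (d * ((j : ℤ) + 1))) / ps q (d * ((j : ℤ) + 1)) := by
      rw [eq_div_iff e2]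
      field_simp
      unfold ps
      ring
    rw [e3, e4, inv_div, div_div_div_eq, mul_comm (ps q (1 + d * ↑j + ↑n * t) / _), div_mul_div_comm,
      mul_comm (ps q (d * (j + 1)))]
  rw [key]
  unfold cs
  apply Ex.prod_range
  intro j hj
  have hw : S.Rs (-q ^ (1 + d * (j : ℤ)) / ps q (1 + d * j))
      (-ζ ^ (1 + d * (j : ℤ)) / (1 - ζ ^ (1 + d * (j : ℤ)))) :=
    (S.Rs_zpow hζ0 _).neg.div (Rs_ps hζ hn _) (one_sub_ne hζ (h1 j hj))
  have hw' : S.Rs (1 / ps q (d * ((j : ℤ) + 1))) (1 / (1 - ζ ^ (d * ((j : ℤ) + 1)))) :=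
    S.Rs_one.div (Rs_ps hζ hn _) (one_sub_ne hζ (h2 j hj))
  exact (Ex_lin hq hζ0 hζn hw).mul ((Ex_lin hq hζ0 hζn hw').inv hζn)

/-- the summand -/
def Te (q : K) (d n : ℤ) (r : ℕ) (k : ℕ) : K :=
  ps q (2 * d * k + 1) * q ^ (d * r * k) * F q d n 0 k ^ (2 * r + 3)

/-- its residue -/
def Th (ζ : L) (d : ℤ) (r : ℕ) (k : ℕ) : L :=
  (1 - ζ ^ (2 * d * k + 1)) * ζ ^ (d * r * k) * al ζ d k ^ (2 * r + 3)

theorem main (hq : q ≠ 0) (hq1 : ∀ e : ℤ, e ≠ 0 → q ^ e ≠ 1) (hζ : IsPrimitiveRoot ζ n)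
    (hn : n ≠ 0) {d c t0 s : ℤ} {N m μ r : ℕ} (hr : 1 ≤ r) (hd : d = 2 * r + 3)
    (hN : 1 + d * N = n * c) (hs0 : 0 < s)
    (hs : n * s + 1 = d * (m + 1)) (ht0 : 2 * (n * t0) + 1 = d * (2 * μ + 1))
    (hc : c = t0 + r * s) (hdeg : μ + r * m + r = N)
    (hx : ∀ t : ℤ, (t = 0 ∨ t = s ∨ t = -1 ∨ t = s + 1) → ∀ i : ℤ, -m ≤ i → 1 + n * t + d * i ≠ 0)
    (ht : ∀ i : ℤ, -(2 * μ) ≤ i → 1 + n * t0 + d * i ≠ 0)
    (h1 : ∀ j : ℕ, j < N → ¬ (n : ℤ) ∣ 1 + d * j)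
    (h2 : ∀ j : ℕ, j < N → ¬ (n : ℤ) ∣ d * (j + 1)) :
    S.D 3 (∑ k ∈ range (N + 1), Te q d n r k) ∧
      ((∑ k ∈ range (N + 1), Th ζ d r k * cs ζ d k = 0) →
        S.D 4 (∑ k ∈ range (N + 1), Te q d n r k)) := by
  have hex : ∀ k : ℕ, ∃ y w : K, k ≤ N → y ∈ S.O ∧ S.Rs w (cs ζ d k) ∧ ∀ l : List ℤ, l.sum = 0 →
      S.D 4 ((l.map (fun t => F q d n t k / F q d n 0 k)).prod -
        (1 + (q ^ n - 1) ^ 2 * (y * ((l.map (fun t : ℤ => t ^ 2)).sum : ℤ)) +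
        (q ^ n - 1) ^ 3 * (w * ((l.map (fun t : ℤ => t ^ 3)).sum : ℤ)))) := by
    intro k
    by_cases hk : k ≤ N
    · obtain ⟨y, w, h⟩ := (Ex_F (S := S) hq hζ hn (d := d) (k := k)
        (fun j hj => h1 j (lt_of_lt_of_le hj hk)) (fun j hj => h2 j (lt_of_lt_of_le hj hk))).cum
      exact ⟨y, w, fun _ => h⟩
    · exact ⟨0, 0, fun h => absurd h hk⟩
  choose y w hyw using hex
  have hTRs : ∀ k ∈ range (N + 1), S.Rs (Te q d n r k) (Th ζ d r k) := by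
    intro k hk
    have hk' : k ≤ N := Nat.lt_succ_iff.1 (mem_range.1 hk)
    exact ((Rs_ps hζ hn _).mul (S.Rs_zpow (hζ.ne_zero hn) _)).mul
      ((Rs_F0 hζ hn (fun j hj => h2 j (lt_of_lt_of_le hj hk'))).pow _)
  set U : K := ∑ k ∈ range (N + 1), Te q d n r k * y k with hU
  set V : K := ∑ k ∈ range (N + 1), Te q d n r k * w k with hV
  set Sg : K := ∑ k ∈ range (N + 1), Te q d n r k with hSg
  have hUm : U ∈ S.O := by
    apply S.O.sum_mem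
    intro k hk
    have hk' : k ≤ N := Nat.lt_succ_iff.1 (mem_range.1 hk)
    exact S.O.mul_mem (hTRs k hk).mem (hyw k hk').1
  have hVR : S.Rs V (∑ k ∈ range (N + 1), Th ζ d r k * cs ζ d k) := by
    apply Rs.sum
    intro k hk
    have hk' : k ≤ N := Nat.lt_succ_iff.1 (mem_range.1 hk)
    exact (hTRs k hk).mul (hyw k hk').2.1
  obtain ⟨r', rfl⟩ := Nat.exists_eq_add_of_le hr
  -- the list of parameters
  have hlist : ∀ u : ℤ, (∀ i : ℤ, -m ≤ i → 1 + n * u + d * i ≠ 0) →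
      (∀ i : ℤ, -m ≤ i → 1 + n * (s - u) + d * i ≠ 0) →
      S.D 4 (Sg + (q ^ n - 1) ^ 2 * ((((c ^ 2 + t0 ^ 2 + u ^ 2 + (s - u) ^ 2 + r' * s ^ 2 : ℤ)) : K) * U)
        + (q ^ n - 1) ^ 3 * ((((-c) ^ 3 + t0 ^ 3 + u ^ 3 + (s - u) ^ 3 + r' * s ^ 3 : ℤ) : K) * V)) := by
    intro u hu hu'
    set l : List ℤ := [-c, t0, u, s - u] ++ List.replicate r' s with hl
    have hl1 : l.sum = 0 := by
      rw [hl]; simp [List.sum_append, List.sum_replicate, hc]; ring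
    have hl2 : (l.map (fun t : ℤ => t ^ 2)).sum =
        c ^ 2 + t0 ^ 2 + u ^ 2 + (s - u) ^ 2 + r' * s ^ 2 := by
      rw [hl]; simp [List.sum_append, List.sum_replicate]; ring
    have hl3 : (l.map (fun t : ℤ => t ^ 3)).sum =
        (-c) ^ 3 + t0 ^ 3 + u ^ 3 + (s - u) ^ 3 + r' * s ^ 3 := by
      rw [hl]; simp [List.sum_append, List.sum_replicate]; ring
    have hvan := vanish hq hq1 hr hd hN hs ht0 hc hdeg (hx 0 (Or.inl rfl)) (hx s (Or.inr (Or.inl rfl)))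
      hu hu' ht
    have hsum : S.D 4 (∑ k ∈ range (N + 1), (Te q d n (1 + r') k *
        (l.map (fun t => F q d n t k / F q d n 0 k)).prod - Te q d n (1 + r') k *
        (1 + (q ^ n - 1) ^ 2 * (y k * ((l.map (fun t : ℤ => t ^ 2)).sum : ℤ)) +
        (q ^ n - 1) ^ 3 * (w k * ((l.map (fun t : ℤ => t ^ 3)).sum : ℤ))))) := by
      apply D.sum
      intro k hk
      have hk' : k ≤ N := Nat.lt_succ_iff.1 (mem_range.1 hk)
      rw [← mul_sub]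
      exact ((hyw k hk').2.2 l hl1).mem_mul (hTRs k hk).mem
    rw [hl2, hl3, sum_sub_distrib] at hsum
    have hz : ∑ k ∈ range (N + 1), (Te q d n (1 + r') k *
        (l.map (fun t => F q d n t k / F q d n 0 k)).prod) = 0 := by
      rw [← hvan]
      apply sum_congr rfl
      intro k hk
      have hk' : k ≤ N := Nat.lt_succ_iff.1 (mem_range.1 hk)
      have hF0 : F q d n 0 k ≠ 0 :=
        (Rs_F0 (S := S) hζ hn (fun j hj => h2 j (lt_of_lt_of_le hj hk'))).ne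
          (al_ne hζ (fun j hj => h1 j (lt_of_lt_of_le hj hk'))
            (fun j hj => h2 j (lt_of_lt_of_le hj hk')))
      rw [hl]
      simp only [List.map_append, List.map_cons, List.map_nil, List.prod_append, List.prod_cons,
        List.prod_nil, List.map_replicate, List.prod_replicate, mul_one, Nat.add_sub_cancel_left]
      unfold Te
      have e1 : F q d n 0 k ^ (2 * (1 + r') + 3) =
        F q d n 0 k ^ 5 * (F q d n 0 k * F q d n 0 k) ^ r' := by ring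
      rw [e1]
      have e2 : (F q d n 0 k * F q d n s k) ^ r' = (F q d n 0 k * F q d n 0 k) ^ r' *
          (F q d n s k / F q d n 0 k) ^ r' := by
        rw [← mul_pow]
        congr 1
        field_simp
      rw [e2]
      field_simp
    rw [hz] at hsum
    refine hsum.neg.of_eq ?_
    rw [zero_sub, neg_neg, hSg, hU, hV, mul_sum, mul_sum, mul_sum, mul_sum, ← sum_add_distrib,
      ← sum_add_distrib]
    apply sum_congr rfl
    intro k _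
    push_cast
    ring
  have hD0 := hlist 0 (hx 0 (Or.inl rfl)) (by rw [sub_zero]; exact hx s (Or.inr (Or.inl rfl)))
  have hD1 := hlist (-1) (hx (-1) (Or.inr (Or.inr (Or.inl rfl))))
    (by rw [sub_neg_eq_add]; exact hx (s + 1) (Or.inr (Or.inr (Or.inr rfl))))
  have hinv : ((2 * s + 2 : ℤ) : K)⁻¹ ∈ S.O := by
    obtain ⟨s', rfl⟩ := Int.eq_ofNat_of_zero_le hs0.le
    have := inv_nat_mem (S := S) (2 * s' + 2) (by omega)
    simpa using this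
  have hne : ((2 * s + 2 : ℤ) : K) ≠ 0 := by
    have : (2 * s + 2 : ℤ) ≠ 0 := by omega
    exact_mod_cast this
  have hp : ((( c ^ 2 + t0 ^ 2 + 0 ^ 2 + (s - 0) ^ 2 + r' * s ^ 2 : ℤ)) : K) ∈ S.O := int_mem _
  have general : ∀ i : ℕ, i ≤ 4 → S.D i ((q ^ n - 1) ^ 3 * V) → S.D i Sg := by
    intro i hi hiV
    have a0 := (hD0.mono hi).sub (hiV.mul_mem
      (int_mem (((-c) ^ 3 + t0 ^ 3 + 0 ^ 3 + (s - 0) ^ 3 + r' * s ^ 3 : ℤ))))
    have a1 := (hD1.mono hi).sub (hiV.mul_mem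
      (int_mem (((-c) ^ 3 + t0 ^ 3 + (-1) ^ 3 + (s - (-1)) ^ 3 + r' * s ^ 3 : ℤ))))
    have a2 := (a1.sub a0).mul_mem hinv
    have a3 : S.D i ((q ^ n - 1) ^ 2 * U) := by
      refine a2.of_eq ?_
      rw [mul_inv_eq_iff_eq_mul₀ hne]
      push_cast
      ring
    refine (a0.sub (a3.mul_mem hp)).of_eq ?_
    push_cast
    ring
  refine ⟨general 3 (by norm_num) ((S.D_eps 3).mul_mem hVR.mem), fun hV0 => general 4 le_rfl ?_⟩
  have hVD : S.D 1 V := (hVR.of_eq rfl hV0).D1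
  exact (S.D_eps 3).mul hVD

end Loc

end Pool.Agent.P8H19.QC
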