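import Pool.Agent.P8H19.QC.Loc

set_option autoImplicit false

namespace Pool.Agent.P8H19.QC

open Finset

section
variable {L : Type*} [Field L] [CharZero L]

open PowerSeries in
theorem eps_factor {ζ : L} {n : ℕ} (hζ : IsPrimitiveRoot ζ n) (hn : n ≠ 0) :
    ∃ u : L⟦X⟧, constantCoeff u ≠ 0 ∧ (C ζ + X : L⟦X⟧) ^ n - 1 = X * u := by
  refine ⟨∑ i ∈ range n, (C ζ + X : L⟦X⟧) ^ i * (C ζ) ^ (n - 1 - i), ?_, ?_⟩
  · rw [map_sum]
    have : ∀ i ∈ range n, constantCoeff ((C ζ + X : L⟦X⟧) ^ i * (C ζ) ^ (n - 1 - i)) =
        ζ ^ (n - 1) := by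
      intro i hi
      have hi' := mem_range.1 hi
      simp only [map_mul, map_pow, map_add, constantCoeff_C, constantCoeff_X, add_zero]
      rw [← pow_add]
      congr 1; omega
    rw [sum_congr rfl this, sum_const, card_range, nsmul_eq_mul]
    exact mul_ne_zero (by exact_mod_cast hn) (pow_ne_zero _ (hζ.ne_zero hn))
  · have h := (Commute.all (C ζ + X : L⟦X⟧) (C ζ)).mul_geom_sum₂ n
    rw [add_sub_cancel_left] at h
    rw [h, ← map_pow, hζ.pow_eq_one, map_one]

/-- The local ring `L⟦X⟧` inside its fraction field, with `q = ζ + X`. -/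
noncomputable def inst {ζ : L} {n : ℕ} (hζ : IsPrimitiveRoot ζ n) (hn : n ≠ 0) :
    Loc (algebraMap (PowerSeries L) (FractionRing (PowerSeries L))
      (PowerSeries.C ζ + PowerSeries.X)) ζ n where
  O := (algebraMap (PowerSeries L) (FractionRing (PowerSeries L))).range
  ev := (PowerSeries.constantCoeff (R := L)).comp
    ((RingEquiv.ofBijective (algebraMap (PowerSeries L) (FractionRing (PowerSeries L))).rangeRestrict
      ⟨fun a b h => IsFractionRing.injective (PowerSeries L) (FractionRing (PowerSeries L))
        (congrArg Subtype.val h), RingHom.rangeRestrict_surjective _⟩).symm : _ →+* PowerSeries L)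
  hq := ⟨_, rfl⟩
  evq := by
    have : ((RingEquiv.ofBijective
        (algebraMap (PowerSeries L) (FractionRing (PowerSeries L))).rangeRestrict
      ⟨fun a b h => IsFractionRing.injective (PowerSeries L) (FractionRing (PowerSeries L))
        (congrArg Subtype.val h), RingHom.rangeRestrict_surjective _⟩).symm
        ⟨algebraMap (PowerSeries L) (FractionRing (PowerSeries L))
      (PowerSeries.C ζ + PowerSeries.X), ⟨_, rfl⟩⟩) = PowerSeries.C ζ + PowerSeries.X := by
      rw [RingEquiv.symm_apply_eq]
      rfl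
    rw [RingHom.comp_apply]
    erw [this]
    simp
  inv := by
    rintro ⟨_, o, rfl⟩ h
    have e : ((RingEquiv.ofBijective
        (algebraMap (PowerSeries L) (FractionRing (PowerSeries L))).rangeRestrict
      ⟨fun a b h => IsFractionRing.injective (PowerSeries L) (FractionRing (PowerSeries L))
        (congrArg Subtype.val h), RingHom.rangeRestrict_surjective _⟩).symm
        ⟨algebraMap (PowerSeries L) (FractionRing (PowerSeries L)) o, ⟨_, rfl⟩⟩) = o := by
      rw [RingEquiv.symm_apply_eq]
      rfl
    rw [RingHom.comp_apply] at h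
    erw [e] at h
    refine ⟨o⁻¹, ?_⟩
    have h1 : o * o⁻¹ = 1 := PowerSeries.mul_inv_cancel o h
    have h2 := congrArg (algebraMap (PowerSeries L) (FractionRing (PowerSeries L))) h1
    rw [map_mul, map_one] at h2
    exact eq_inv_of_mul_eq_one_right h2
  ker := by
    rintro ⟨_, o, rfl⟩ h
    have e : ((RingEquiv.ofBijective
        (algebraMap (PowerSeries L) (FractionRing (PowerSeries L))).rangeRestrict
      ⟨fun a b h => IsFractionRing.injective (PowerSeries L) (FractionRing (PowerSeries L))
        (congrArg Subtype.val h), RingHom.rangeRestrict_surjective _⟩).symm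
        ⟨algebraMap (PowerSeries L) (FractionRing (PowerSeries L)) o, ⟨_, rfl⟩⟩) = o := by
      rw [RingEquiv.symm_apply_eq]
      rfl
    rw [RingHom.comp_apply] at h
    erw [e] at h
    obtain ⟨v, hv⟩ := PowerSeries.X_dvd_iff.2 h
    obtain ⟨u, hu, hu'⟩ := eps_factor hζ hn
    refine ⟨⟨algebraMap (PowerSeries L) (FractionRing (PowerSeries L)) (u⁻¹ * v), ⟨_, rfl⟩⟩, ?_⟩
    show algebraMap (PowerSeries L) (FractionRing (PowerSeries L)) o = _
    rw [← map_pow, ← map_one (algebraMap (PowerSeries L) (FractionRing (PowerSeries L))), ← map_sub,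
      hu', ← map_mul, hv]
    congr 1
    have h1 : u * u⁻¹ = 1 := PowerSeries.mul_inv_cancel u hu
    linear_combination (-(PowerSeries.X * v)) * h1

theorem q_ne_one {ζ : L} (e : ℤ) (he : e ≠ 0) :
    (algebraMap (PowerSeries L) (FractionRing (PowerSeries L))
      (PowerSeries.C ζ + PowerSeries.X)) ^ e ≠ 1 := by
  have key : ∀ m : ℕ, m ≠ 0 → (algebraMap (PowerSeries L) (FractionRing (PowerSeries L))
      (PowerSeries.C ζ + PowerSeries.X)) ^ m ≠ 1 := by
    intro m hm h
    rw [← map_pow, ← map_one (algebraMap (PowerSeries L) (FractionRing (PowerSeries L)))] at h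
    have h1 := IsFractionRing.injective (PowerSeries L) (FractionRing (PowerSeries L)) h
    have h2 : ((((Polynomial.X + Polynomial.C ζ) ^ m : Polynomial L)) : PowerSeries L) =
        ((1 : Polynomial L) : PowerSeries L) := by
      rw [Polynomial.coe_one, ← h1]
      simp [add_comm]
    have h3 : (Polynomial.X + Polynomial.C ζ) ^ m = (1 : Polynomial L) := by
      exact_mod_cast h2
    have h4 := congrArg (fun p => Polynomial.coeff p m) h3
    simp only [Polynomial.coeff_X_add_C_pow, Polynomial.coeff_one] at h4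
    rw [if_neg hm] at h4
    simp at h4
  obtain ⟨m, rfl | rfl⟩ := e.eq_nat_or_neg
  · rw [zpow_natCast]; exact key m (by simpa using he)
  · rw [zpow_neg, zpow_natCast, Ne, inv_eq_one]; exact key m (by simpa using he)

theorem q_ne_zero {ζ : L} (hζ : ζ ≠ 0) :
    (algebraMap (PowerSeries L) (FractionRing (PowerSeries L))
      (PowerSeries.C ζ + PowerSeries.X)) ≠ 0 := by
  intro h
  rw [map_eq_zero_iff _ (IsFractionRing.injective (PowerSeries L) (FractionRing (PowerSeries L)))] at h
  have := congrArg PowerSeries.constantCoeff h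
  simp at this
  exact hζ this

end

end Pool.Agent.P8H19.QC
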