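import Pool.Agent.P8H19.QC.Rev
import Pool.Agent.P8H19.QC.Inst

set_option autoImplicit false
set_option linter.unusedSectionVars false

namespace Pool.Agent.P8H19.QC

open Finset Polynomial

section
variable {K L : Type*} [Field K] [Field L] [CharZero K] [CharZero L] {q : K} {ζ : L} {n : ℕ}
  {S : Loc q ζ n}

namespace Loc

theorem Rs.unique {x : K} {z w : L} (h : S.Rs x z) (h' : S.Rs x w) : z = w := by
  obtain ⟨h1, h2⟩ := h
  obtain ⟨h3, h4⟩ := h'
  rw [← h2, ← h4]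

theorem Rs_eval (P : ℤ[X]) :
    S.Rs (eval₂ (Int.castRingHom K) q P) (eval₂ (Int.castRingHom L) ζ P) := by
  induction P using Polynomial.induction_on' with
  | add p r hp hr => rw [eval₂_add, eval₂_add]; exact hp.add hr
  | monomial m a =>
    rw [eval₂_monomial, eval₂_monomial]
    refine Rs.mul ?_ (S.Rs_q.pow m)
    obtain ⟨b, rfl | rfl⟩ := a.eq_nat_or_neg
    · simpa using S.Rs_nat b
    · simpa using (S.Rs_nat b).neg

theorem dvd_of_eval_zero (hζ : IsPrimitiveRoot ζ n) (hn : n ≠ 0) {P : ℤ[X]}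
    (h : eval₂ (Int.castRingHom L) ζ P = 0) : cyclotomic n ℤ ∣ P := by
  rw [cyclotomic_eq_minpoly hζ (Nat.pos_of_ne_zero hn)]
  apply minpoly.isIntegrallyClosed_dvd (hζ.isIntegral (Nat.pos_of_ne_zero hn))
  rw [aeval_def]
  exact h

theorem dvd_of_D (hζ : IsPrimitiveRoot ζ n) (hn : n ≠ 0) (hqn : q ^ n - 1 ≠ 0) (j : ℕ) :
    ∀ P : ℤ[X], S.D j (eval₂ (Int.castRingHom K) q P) → cyclotomic n ℤ ^ j ∣ P := by
  induction j with
  | zero => intro P _; simp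
  | succ j ih =>
    intro P hP
    have h1 : S.Rs (eval₂ (Int.castRingHom K) q P) 0 :=
      (hP.mono (by omega : 1 ≤ j + 1)).Rs hζ.pow_eq_one
    obtain ⟨P1, rfl⟩ := dvd_of_eval_zero hζ hn ((Rs_eval P).unique h1)
    obtain ⟨Ps, hPs⟩ := cyclotomic.dvd_X_pow_sub_one n ℤ
    have h2 : q ^ n - 1 = eval₂ (Int.castRingHom K) q (cyclotomic n ℤ) *
        eval₂ (Int.castRingHom K) q Ps := by
      rw [← eval₂_mul, ← hPs]; simp
    obtain ⟨o, ho, ho'⟩ := hP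
    rw [eval₂_mul] at ho'
    have h3 : eval₂ (Int.castRingHom K) q (cyclotomic n ℤ) ≠ 0 := by
      intro h; apply hqn; rw [h2, h, zero_mul]
    rw [pow_succ']
    apply mul_dvd_mul_left
    apply ih
    refine ⟨eval₂ (Int.castRingHom K) q Ps * o, S.O.mul_mem (Rs_eval Ps).mem ho, ?_⟩
    apply mul_left_cancel₀ h3
    rw [ho', pow_succ']
    nth_rewrite 1 [h2]
    ring

theorem not_dvd (hζ : IsPrimitiveRoot ζ n) (hn : n ≠ 0) {e : ℕ} (he : ¬ n ∣ e) :
    ¬ cyclotomic n ℤ ∣ (1 - X ^ e : ℤ[X]) := by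
  rintro ⟨P, hP⟩
  have h := congrArg (eval₂ (Int.castRingHom L) ζ) hP
  rw [eval₂_mul] at h
  have h1 : eval₂ (Int.castRingHom L) ζ (cyclotomic n ℤ) = 0 := by
    have := hζ.isRoot_cyclotomic (Nat.pos_of_ne_zero hn)
    rw [← map_cyclotomic_int n L, IsRoot, eval_map] at this
    exact this
  rw [h1, zero_mul] at h
  simp only [eval₂_sub, eval₂_one, eval₂_X_pow] at h
  exact he ((hζ.pow_eq_one_iff_dvd e).1 (sub_eq_zero.1 h).symm)

end Loc

/-- numerator of `(q;q^d)_k/(q^d;q^d)_k` over the common denominator -/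
noncomputable def An (d n k : ℕ) : ℤ[X] :=
  (∏ j ∈ range k, (1 - X ^ (1 + d * j))) * ∏ j ∈ range (n - 1 - k), (1 - X ^ (d * (k + j + 1)))

noncomputable def Bn (d n : ℕ) : ℤ[X] := ∏ j ∈ range (n - 1), (1 - X ^ (d * (j + 1)))

noncomputable def Pn (d r n : ℕ) : ℤ[X] :=
  ∑ k ∈ range n, (∑ i ∈ range (2 * d * k + 1), X ^ i) * X ^ (d * r * k) * An d n k ^ (2 * r + 3)

theorem An_eval {F : Type*} [Field F] (x : F) (d n k : ℕ) (hk : k < n)
    (h : ∀ j : ℕ, j + 1 < n → 1 - x ^ (d * (j + 1)) ≠ 0) :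
    eval₂ (Int.castRingHom F) x (An d n k) =
      eval₂ (Int.castRingHom F) x (Bn d n) *
        ∏ j ∈ range k, (1 - x ^ (1 + d * j)) / (1 - x ^ (d * (j + 1))) := by
  unfold An Bn
  have e : n - 1 = k + (n - 1 - k) := by omega
  rw [e, prod_range_add]
  have e2 : k + (n - 1 - k) - k = n - 1 - k := by omega
  rw [e2, eval₂_mul, eval₂_mul, prod_div_distrib]
  have h1 : ∏ j ∈ range k, (1 - x ^ (d * (j + 1))) ≠ 0 := by
    apply prod_ne_zero_iff.2
    intro j hj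
    have := mem_range.1 hj
    exact h j (by omega)
  simp only [eval₂_finsetProd, eval₂_sub, eval₂_one, eval₂_X_pow]
  field_simp

theorem Bn_ne {F : Type*} [Field F] (x : F) (d n : ℕ)
    (h : ∀ j : ℕ, j + 1 < n → 1 - x ^ (d * (j + 1)) ≠ 0) :
    eval₂ (Int.castRingHom F) x (Bn d n) ≠ 0 := by
  unfold Bn
  simp only [eval₂_finsetProd, eval₂_sub, eval₂_one, eval₂_X_pow]
  apply prod_ne_zero_iff.2
  intro j hj
  have := mem_range.1 hj
  exact h j (by omega)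

theorem Pn_eval {F : Type*} [Field F] (x : F) (d r n : ℕ) (hx : 1 - x ≠ 0)
    (h : ∀ j : ℕ, j + 1 < n → 1 - x ^ (d * (j + 1)) ≠ 0) :
    eval₂ (Int.castRingHom F) x (Pn d r n) = eval₂ (Int.castRingHom F) x (Bn d n) ^ (2 * r + 3) *
      ∑ k ∈ range n, (1 - x ^ (2 * d * k + 1)) / (1 - x) * x ^ (d * r * k) *
        (∏ j ∈ range k, (1 - x ^ (1 + d * j)) / (1 - x ^ (d * (j + 1)))) ^ (2 * r + 3) := by
  unfold Pn
  rw [eval₂_finsetSum, mul_sum]
  apply sum_congr rfl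
  intro k hk
  have hk' := mem_range.1 hk
  rw [eval₂_mul, eval₂_mul, eval₂_X_pow]
  rw [eval₂_pow, An_eval x d n k hk' h, mul_pow]
  have e1 : eval₂ (Int.castRingHom F) x (∑ i ∈ range (2 * d * k + 1), X ^ i) =
      (1 - x ^ (2 * d * k + 1)) / (1 - x) := by
    rw [eval₂_finsetSum, eq_div_iff hx]
    simp only [eval₂_X_pow]
    exact geom_sum_mul_neg x _
  rw [e1]
  ring

end

section
variable {K L : Type*} [Field K] [Field L] [CharZero K] [CharZero L] {q : K} {ζ : L} {n : ℕ}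
  {S : Loc q ζ n}

open Loc

theorem F0_eq' (d k n : ℕ) : F q (d : ℤ) (n : ℤ) 0 k =
    ∏ j ∈ range k, (1 - q ^ (1 + d * j)) / (1 - q ^ (d * (j + 1))) := by
  rw [Loc.F_zero_eq (n := n)]
  apply prod_congr rfl
  intro j _
  unfold ps
  have e1 : q ^ (1 + (d : ℤ) * j) = q ^ (1 + d * j) := by
    rw [← zpow_natCast]; congr 1
  have e2 : q ^ ((d : ℤ) * (j + 1)) = q ^ (d * (j + 1)) := by
    rw [← zpow_natCast]; congr 1
  rw [e1, e2]

theorem dvd_Pn (S : Loc q ζ n) (hq1 : ∀ e : ℤ, e ≠ 0 → q ^ e ≠ 1)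
    (hζ : IsPrimitiveRoot ζ n)
    (hn : 1 < n) {d r N : ℕ} {c : ℤ} (hN : 1 + (d : ℤ) * N = n * c)
    (h2 : ∀ j : ℕ, j + 1 < n → ¬ n ∣ d * (j + 1)) (hNn : N < n) {i : ℕ} (hi : i ≤ 4)
    (hr : 1 ≤ r)
    (hD : S.D i (∑ k ∈ range (N + 1), Te q d n r k)) :
    cyclotomic n ℤ ^ i ∣ Pn d r n := by
  have hn0 : n ≠ 0 := by omega
  have h2' : ∀ j : ℕ, j + 1 < n → ¬ (n : ℤ) ∣ (d : ℤ) * (j + 1) := by
    intro j hj h
    apply h2 j hj
    exact_mod_cast h
  have hfull : S.D i (∑ k ∈ range n, Te q d n r k) := by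
    have hsub : range (N + 1) ⊆ range n := by
      intro x hx
      rw [mem_range] at hx ⊢
      omega
    rw [← sum_sdiff hsub]
    refine D.add ?_ hD
    apply D.sum
    intro k hk
    rw [mem_sdiff, mem_range, mem_range] at hk
    obtain ⟨hk1, hk2⟩ := hk
    have hal : al ζ (d : ℤ) k = 0 := by
      unfold al
      apply prod_eq_zero (mem_range.2 (show N < k by omega))
      rw [hN, zpow_mul, zpow_natCast, hζ.pow_eq_one, one_zpow, sub_self, zero_div]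
    have h3 : S.Rs (F q d n 0 k) 0 :=
      (Rs_F0 hζ hn0 (fun j hj => h2' j (by omega))).of_eq rfl hal
    have h4 := (h3.D1.pow (2 * r + 3)).mono (show i ≤ 1 * (2 * r + 3) by omega)
    unfold Te
    exact h4.mem_mul (S.O.mul_mem (Rs_ps hζ hn0 _).mem (S.Rs_zpow (hζ.ne_zero hn0) _).mem)
  apply dvd_of_D (S := S) hζ hn0
  · rw [← zpow_natCast, sub_ne_zero]
    exact hq1 n (by exact_mod_cast hn0)
  · have hne : ∀ m : ℕ, m ≠ 0 → 1 - q ^ m ≠ 0 := by
      intro m hm h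
      apply hq1 m (by exact_mod_cast hm)
      rw [zpow_natCast]
      exact (sub_eq_zero.1 h).symm
    have hd0 : d ≠ 0 := by
      rintro rfl
      exact h2 0 (by omega) (by simp)
    rw [Pn_eval q d r n (by simpa using hne 1 one_ne_zero)
      (fun j _ => hne _ (Nat.mul_ne_zero hd0 (Nat.succ_ne_zero j)))]
    refine D.mem_mul ?_ (S.O.pow_mem (Rs_eval _).mem _)
    have h1q : S.Rs (1 - q) (1 - ζ) := S.Rs_one.sub S.Rs_q
    have h1ζ : 1 - ζ ≠ 0 := by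
      intro h
      have h5 : ζ ^ 1 = 1 := by rw [pow_one]; exact (sub_eq_zero.1 h).symm
      have := (hζ.pow_eq_one_iff_dvd 1).1 h5
      have := Nat.le_of_dvd one_pos this
      omega
    refine (hfull.mul_mem (h1q.inv h1ζ).mem).of_eq ?_
    rw [sum_mul]
    apply sum_congr rfl
    intro k _
    unfold Te
    rw [F0_eq']
    unfold ps
    have e1 : q ^ (2 * (d : ℤ) * k + 1) = q ^ (2 * d * k + 1) := by
      rw [← zpow_natCast]; congr 1
    have e2 : q ^ ((d : ℤ) * r * k) = q ^ (d * r * k) := by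
      rw [← zpow_natCast]; congr 1
    rw [e1, e2]
    ring

end

instance cz : CharZero (FractionRing (PowerSeries ℂ)) := by
  have h1 : CharZero (PowerSeries ℂ) :=
    charZero_of_injective_ringHom (f := PowerSeries.C (R := ℂ)) PowerSeries.C_injective
  exact charZero_of_injective_ringHom
    (IsFractionRing.injective (PowerSeries ℂ) (FractionRing (PowerSeries ℂ)))

/-- Numerical side conditions for the two families. -/
theorem core (d r n l m μ N : ℕ) (c t0 s : ℤ) (hr : 1 ≤ r) (hd : d = 2 * r + 3) (hn : 1 < n)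
    (hN : 1 + (d : ℤ) * N = n * c) (hs0 : 0 < s)
    (hs : (n : ℤ) * s + 1 = d * (m + 1)) (ht0 : 2 * ((n : ℤ) * t0) + 1 = d * (2 * μ + 1))
    (hc : c = t0 + r * s) (hdeg : μ + r * m + r = N)
    (hx : ∀ t : ℤ, (t = 0 ∨ t = s ∨ t = -1 ∨ t = s + 1) →
      ∀ i : ℤ, -m ≤ i → 1 + (n : ℤ) * t + d * i ≠ 0)
    (ht : ∀ i : ℤ, -(2 * μ) ≤ i → 1 + (n : ℤ) * t0 + d * i ≠ 0)
    (h1 : ∀ j : ℕ, j < N → ¬ (n : ℤ) ∣ 1 + (d : ℤ) * j)
    (h2 : ∀ j : ℕ, j + 1 < n → ¬ n ∣ d * (j + 1)) (hNn : N < n) :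
    cyclotomic n ℤ ^ 3 ∣ Pn d r n ∧ (c = 2 * r + 1 → cyclotomic n ℤ ^ 4 ∣ Pn d r n) := by
  have hn0 : n ≠ 0 := by omega
  have hζ := Complex.isPrimitiveRoot_exp n hn0
  set ζ : ℂ := Complex.exp (2 * Real.pi * Complex.I / n) with hζd
  have hq := q_ne_zero (L := ℂ) (hζ.ne_zero hn0)
  have hq1 := fun e he => q_ne_one (L := ℂ) (ζ := ζ) e he
  have hdZ : (d : ℤ) = 2 * r + 3 := by exact_mod_cast hd
  have h2' : ∀ j : ℕ, j < N → ¬ (n : ℤ) ∣ (d : ℤ) * (j + 1) := by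
    intro j hj h
    apply h2 j (by omega)
    exact_mod_cast h
  have hm := Loc.main (S := inst hζ hn0) hq hq1 hζ hn0 hr hdZ hN hs0 hs ht0 hc hdeg hx ht h1 h2'
  refine ⟨dvd_Pn (inst hζ hn0) hq1 hζ hn hN h2 hNn (by norm_num) hr hm.1, fun hc' => ?_⟩
  exact dvd_Pn (inst hζ hn0) hq1 hζ hn hN h2 hNn le_rfl hr
    (hm.2 (rev_zero hζ hn0 hdZ hc' hN h1 h2'))

end Pool.Agent.P8H19.QC
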