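import Mathlib

/-!
# A Karlsson–Minton type vanishing identity (field level)
-/

set_option autoImplicit false

namespace Pool.Agent.P8H19.QC

open Finset

section
variable {K : Type*} [Field K]

/-- `1 - q^e` -/
def ps (q : K) (e : ℤ) : K := 1 - q ^ e

/-- `q^e + q^(-1-e)` -/
def om (q : K) (e : ℤ) : K := q ^ e + q ^ (-1 - e)

theorem om_sub {q : K} (hq : q ≠ 0) (e c : ℤ) :
    om q e - om q c = q ^ (-1 - e) * ps q (1 + e + c) * ps q (e - c) := by
  unfold om ps
  have h1 : q ^ (-1 - e) * q ^ (1 + e + c) = q ^ c := by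
    rw [← zpow_add₀ hq]; congr 1; ring
  have h2 : q ^ (-1 - e) * q ^ (e - c) = q ^ (-1 - c) := by
    rw [← zpow_add₀ hq]; congr 1; ring
  have h3 : q ^ c * q ^ (e - c) = q ^ e := by
    rw [← zpow_add₀ hq]; congr 1; ring
  have : q ^ (-1 - e) * (1 - q ^ (1 + e + c)) * (1 - q ^ (e - c)) =
      q ^ (-1 - e) - (q ^ (-1 - e) * q ^ (1 + e + c)) - q ^ (-1 - e) * q ^ (e - c)
        + (q ^ (-1 - e) * q ^ (1 + e + c)) * q ^ (e - c) := by ring
  rw [this, h1, h2, h3]; ring

theorem shift (q : K) (a d : ℤ) (m k : ℕ) :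
    (∏ j ∈ range k, ps q (a + d * j)) * ∏ j ∈ range m, ps q (a - d * (1 + j)) =
      (∏ j ∈ range k, ps q (a + d * (j - m))) * ∏ j ∈ range m, ps q (a + d * (k - 1 - j)) := by
  induction k with
  | zero =>
    simp only [range_zero, prod_empty, one_mul]
    apply prod_congr rfl
    intro j _
    congr 1; push_cast; ring
  | succ k ih =>
    have h1 : (∏ j ∈ range m, ps q (a + d * (k - j))) * ps q (a + d * (k - m)) =
        ps q (a + d * k) * ∏ j ∈ range m, ps q (a + d * (k - 1 - j)) := by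
      have := prod_range_succ (fun j : ℕ => ps q (a + d * (k - j))) m
      rw [← this, prod_range_succ']
      rw [mul_comm]
      have e : ∏ x ∈ range m, ps q (a + d * (↑k - ((x + 1 : ℕ) : ℤ))) =
          ∏ j ∈ range m, ps q (a + d * (↑k - 1 - ↑j)) := by
        apply prod_congr rfl
        intro j _
        congr 1; push_cast; ring
      rw [e]
      simp
    rw [prod_range_succ, prod_range_succ]
    have h2 : ∏ j ∈ range m, ps q (a + d * (((k + 1 : ℕ) : ℤ) - 1 - j)) =
        ∏ j ∈ range m, ps q (a + d * (k - j)) := by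
      apply prod_congr rfl
      intro j _
      congr 1; push_cast; ring
    rw [h2]
    calc (∏ x ∈ range k, ps q (a + d * ↑x)) * ps q (a + d * ↑k) *
          ∏ j ∈ range m, ps q (a - d * (1 + ↑j))
        = ((∏ x ∈ range k, ps q (a + d * ↑x)) * ∏ j ∈ range m, ps q (a - d * (1 + ↑j))) *
          ps q (a + d * ↑k) := by ring
      _ = (∏ j ∈ range k, ps q (a + d * (j - m))) *
          (ps q (a + d * k) * ∏ j ∈ range m, ps q (a + d * (k - 1 - j))) := by rw [ih]; ring
      _ = _ := by rw [← h1]; ring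

/-- The basic product. -/
def F (q : K) (d n : ℤ) (t : ℤ) (k : ℕ) : K :=
  ∏ j ∈ range k, ps q (1 + d * j + n * t) / (q ^ (n * t) - q ^ (d * (j + 1)))

theorem ps_ne {q : K} (hq1 : ∀ e : ℤ, e ≠ 0 → q ^ e ≠ 1) {e : ℤ} (he : e ≠ 0) : ps q e ≠ 0 := by
  unfold ps; exact sub_ne_zero.2 (hq1 e he).symm

/-- Pair of parameters `t, t'` with `n (t + t') + 1 = d (m + 1)`. -/
theorem pair {q : K} (hq : q ≠ 0) (hq1 : ∀ e : ℤ, e ≠ 0 → q ^ e ≠ 1) {d n t t' : ℤ} {m : ℕ}
    (hm : n * (t + t') + 1 = d * (m + 1))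
    (h1 : ∀ i : ℤ, -m ≤ i → 1 + n * t + d * i ≠ 0)
    (h2 : ∀ i : ℤ, -m ≤ i → 1 + n * t' + d * i ≠ 0) (k : ℕ) :
    F q d n t k * F q d n t' k =
      (∏ j ∈ range m, (ps q (1 + n * t - d * (1 + j)) * ps q (1 + n * t' - d * (1 + j))))⁻¹ *
      q ^ (-(n * (t + t')) * k + (1 + d * k) * m) *
      ∏ j ∈ range m, (om q (d * k) - om q (n * t - d * (1 + j))) := by
  have key : ∀ t t' : ℤ, n * (t + t') + 1 = d * (m + 1) →
      (∀ i : ℤ, -m ≤ i → 1 + n * t + d * i ≠ 0) → ∀ k : ℕ,
      (∏ j ∈ range k, ps q (1 + n * t + d * j)) /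
        (∏ j ∈ range k, ps q (d * (j + 1) - n * t')) *
        (∏ j ∈ range m, ps q (1 + n * t - d * (1 + j))) =
      ∏ j ∈ range m, ps q (1 + n * t + d * (k - 1 - j)) := by
    intro t t' hm h1 k
    have e1 : ∏ j ∈ range k, ps q (d * (j + 1) - n * t') =
        ∏ j ∈ range k, ps q ((1 + n * t) + d * (j - m)) := by
      apply prod_congr rfl
      intro j _
      congr 1; linear_combination -hm
    have e2 := shift q (1 + n * t) d m k
    have e3 : ∏ j ∈ range k, ps q ((1 + n * t) + d * (j - m)) ≠ 0 := by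
      apply prod_ne_zero_iff.2
      intro j _
      apply ps_ne hq1
      have := h1 ((j : ℤ) - m) (by omega)
      exact this
    rw [e1]
    field_simp
    rw [e2]
  have hF : ∀ t : ℤ, F q d n t k = q ^ (-(n * t) * k) * ((∏ j ∈ range k, ps q (1 + n * t + d * j)) /
        (∏ j ∈ range k, ps q (d * (j + 1) - n * t))) := by
    intro t
    unfold F
    rw [← prod_div_distrib]
    have : q ^ (-(n * t) * k) = ∏ j ∈ range k, q ^ (-(n * t)) := by
      rw [prod_const, card_range, ← zpow_natCast, ← zpow_mul]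
    rw [this, ← prod_mul_distrib]
    apply prod_congr rfl
    intro j _
    have e : q ^ (n * t) - q ^ (d * (j + 1)) = q ^ (n * t) * ps q (d * (j + 1) - n * t) := by
      unfold ps
      rw [mul_sub, mul_one, ← zpow_add₀ hq]
      congr 2; ring
    rw [e, zpow_neg]
    have hz : q ^ (n * t) ≠ 0 := zpow_ne_zero _ hq
    have : 1 + d * j + n * t = 1 + n * t + d * j := by ring
    rw [this]
    field_simp
  have k1 := key t t' hm h1 k
  have k2 := key t' t (by rw [add_comm t' t]; exact hm) h2 k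
  rw [hF t, hF t']
  have hA : ∏ j ∈ range m, (ps q (1 + n * t - d * (1 + j)) * ps q (1 + n * t' - d * (1 + j))) ≠ 0 := by
    apply prod_ne_zero_iff.2
    intro j hj
    have hj' := mem_range.1 hj
    apply mul_ne_zero
    · apply ps_ne hq1
      have := h1 (-(1 + (j : ℤ))) (by omega)
      intro h; apply this; linear_combination h
    · apply ps_ne hq1
      have := h2 (-(1 + (j : ℤ))) (by omega)
      intro h; apply this; linear_combination h
  have hW : (∏ j ∈ range m, ps q (1 + n * t + d * (k - 1 - j))) *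
      (∏ j ∈ range m, ps q (1 + n * t' + d * (k - 1 - j))) =
      q ^ ((1 + d * k) * m) * ∏ j ∈ range m, (om q (d * k) - om q (n * t - d * (1 + j))) := by
    rw [← prod_range_reflect (fun j : ℕ => ps q (1 + n * t' + d * (k - 1 - j)))]
    have : q ^ ((1 + d * k) * m) = ∏ j ∈ range m, q ^ (1 + d * k) := by
      rw [prod_const, card_range, ← zpow_natCast, ← zpow_mul]
    rw [this, ← prod_mul_distrib, ← prod_mul_distrib]
    apply prod_congr rfl
    intro j hj
    have hj' := mem_range.1 hj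
    rw [om_sub hq]
    have e1 : (1 : ℤ) + n * t + d * (k - 1 - j) = 1 + d * k + (n * t - d * (1 + j)) := by ring
    have e2 : (1 : ℤ) + n * t' + d * (k - 1 - ((m - 1 - j : ℕ) : ℤ)) =
        d * k - (n * t - d * (1 + j)) := by
      have : ((m - 1 - j : ℕ) : ℤ) = m - 1 - j := by omega
      rw [this]; linear_combination hm
    rw [e1, e2]
    have : q ^ (1 + d * k) * (q ^ (-1 - d * k) * ps q (1 + d * k + (n * t - d * (1 + ↑j))) *
        ps q (d * k - (n * t - d * (1 + ↑j)))) = (q ^ (1 + d * k) * q ^ (-1 - d * k)) *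
        (ps q (1 + d * k + (n * t - d * (1 + ↑j))) *
        ps q (d * k - (n * t - d * (1 + ↑j)))) := by ring
    rw [this, ← zpow_add₀ hq]
    have : (1 : ℤ) + d * k + (-1 - d * k) = 0 := by ring
    rw [this, zpow_zero, one_mul]
  have hq2 : q ^ (-(n * (t + t')) * k + (1 + d * k) * m) =
      q ^ (-(n * t) * k) * q ^ (-(n * t') * k) * q ^ ((1 + d * k) * m) := by
    rw [← zpow_add₀ hq, ← zpow_add₀ hq]; congr 1; ring
  rw [hq2]
  rw [eq_comm, inv_mul_eq_div, div_mul_eq_mul_div, div_eq_iff hA, prod_mul_distrib]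
  calc q ^ (-(n * t) * ↑k) * q ^ (-(n * t') * ↑k) * q ^ ((1 + d * ↑k) * ↑m) *
        ∏ j ∈ range m, (om q (d * ↑k) - om q (n * t - d * (1 + ↑j)))
      = q ^ (-(n * t) * ↑k) * q ^ (-(n * t') * ↑k) *
        ((∏ j ∈ range m, ps q (1 + n * t + d * (k - 1 - j))) *
      (∏ j ∈ range m, ps q (1 + n * t' + d * (k - 1 - j)))) := by rw [hW]; ring
    _ = _ := by rw [← k1, ← k2]; ring

/-- Single parameter with `2 n t + 1 = d (2 μ + 1)`. -/
theorem single {q : K} (hq : q ≠ 0) (hq1 : ∀ e : ℤ, e ≠ 0 → q ^ e ≠ 1) {d n t : ℤ} {μ : ℕ}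
    (hm : 2 * (n * t) + 1 = d * (2 * μ + 1))
    (h1 : ∀ i : ℤ, -(2 * μ) ≤ i → 1 + n * t + d * i ≠ 0) (k : ℕ) :
    F q d n t k =
      (∏ j ∈ range (μ + μ), ps q (1 + n * t - d * (1 + j)))⁻¹ *
      q ^ (-(n * t) * k + (1 + d * k) * μ) *
      ∏ j ∈ range μ, (om q (d * k) - om q (n * t - d * (1 + j))) := by
  have hF : F q d n t k = q ^ (-(n * t) * k) * ((∏ j ∈ range k, ps q (1 + n * t + d * j)) /
        (∏ j ∈ range k, ps q ((1 + n * t) + d * (j - (μ + μ : ℕ))))) := by
    unfold F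
    rw [← prod_div_distrib]
    have : q ^ (-(n * t) * k) = ∏ j ∈ range k, q ^ (-(n * t)) := by
      rw [prod_const, card_range, ← zpow_natCast, ← zpow_mul]
    rw [this, ← prod_mul_distrib]
    apply prod_congr rfl
    intro j _
    have e : q ^ (n * t) - q ^ (d * (j + 1)) = q ^ (n * t) * ps q (d * (j + 1) - n * t) := by
      unfold ps
      rw [mul_sub, mul_one, ← zpow_add₀ hq]
      congr 2; ring
    have e4 : (d * (j + 1) - n * t : ℤ) = (1 + n * t) + d * (j - (μ + μ : ℕ)) := by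
      push_cast; linear_combination -hm
    rw [e, e4, zpow_neg]
    have hz : q ^ (n * t) ≠ 0 := zpow_ne_zero _ hq
    have : 1 + d * j + n * t = 1 + n * t + d * j := by ring
    rw [this]
    field_simp
  have e2 := shift q (1 + n * t) d (μ + μ) k
  have e3 : ∏ j ∈ range k, ps q ((1 + n * t) + d * (j - (μ + μ : ℕ))) ≠ 0 := by
    apply prod_ne_zero_iff.2
    intro j _
    apply ps_ne hq1
    have := h1 ((j : ℤ) - (μ + μ : ℕ)) (by push_cast; omega)
    exact this
  have hA : ∏ j ∈ range (μ + μ), ps q (1 + n * t - d * (1 + j)) ≠ 0 := by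
    apply prod_ne_zero_iff.2
    intro j hj
    have hj' := mem_range.1 hj
    apply ps_ne hq1
    have := h1 (-(1 + (j : ℤ))) (by omega)
    intro h; apply this; linear_combination h
  have hW : (∏ j ∈ range (μ + μ), ps q (1 + n * t + d * (k - 1 - j))) =
      q ^ ((1 + d * k) * μ) * ∏ j ∈ range μ, (om q (d * k) - om q (n * t - d * (1 + j))) := by
    rw [prod_range_add]
    rw [← prod_range_reflect (fun j : ℕ => ps q (1 + n * t + d * (k - 1 - ((μ + j : ℕ) : ℤ))))]
    have : q ^ ((1 + d * k) * μ) = ∏ j ∈ range μ, q ^ (1 + d * k) := by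
      rw [prod_const, card_range, ← zpow_natCast, ← zpow_mul]
    rw [this, ← prod_mul_distrib, ← prod_mul_distrib]
    apply prod_congr rfl
    intro j hj
    have hj' := mem_range.1 hj
    rw [om_sub hq]
    have e1 : (1 : ℤ) + n * t + d * (k - 1 - j) = 1 + d * k + (n * t - d * (1 + j)) := by ring
    have e2 : (1 : ℤ) + n * t + d * (k - 1 - ((μ + (μ - 1 - j) : ℕ) : ℤ)) =
        d * k - (n * t - d * (1 + j)) := by
      have : ((μ + (μ - 1 - j) : ℕ) : ℤ) = 2 * μ - 1 - j := by omega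
      rw [this]; linear_combination hm
    rw [e1, e2]
    have : q ^ (1 + d * k) * (q ^ (-1 - d * k) * ps q (1 + d * k + (n * t - d * (1 + ↑j))) *
        ps q (d * k - (n * t - d * (1 + ↑j)))) = (q ^ (1 + d * k) * q ^ (-1 - d * k)) *
        (ps q (1 + d * k + (n * t - d * (1 + ↑j))) *
        ps q (d * k - (n * t - d * (1 + ↑j)))) := by ring
    rw [this, ← zpow_add₀ hq]
    have : (1 : ℤ) + d * k + (-1 - d * k) = 0 := by ring
    rw [this, zpow_zero, one_mul]
  rw [hF, zpow_add₀ hq]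
  rw [inv_mul_eq_div, div_mul_eq_mul_div, eq_div_iff hA, mul_assoc, div_mul_eq_mul_div, e2,
    mul_div_cancel_left₀ _ e3, hW]
  ring

end

end Pool.Agent.P8H19.QC
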