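import Pool.Agent.P8H19.QC.Fld

set_option autoImplicit false

namespace Pool.Agent.P8H19.QC

open Finset

section
variable {K : Type*} [Field K]

theorem erase_prod (f : ℕ → K) (k r : ℕ) :
    ∏ j ∈ (range (k + 1 + r)).erase k, f j =
      (∏ j ∈ range k, f j) * ∏ i ∈ range r, f (k + 1 + i) := by
  have h0 : (∏ j ∈ (range (k + 1 + r)).erase k, f j) =
      ∏ j ∈ (range (k + 1 + r)).erase k, (Function.update f k 1) j := by
    apply prod_congr rfl
    intro j hj
    rw [Function.update_of_ne (ne_of_mem_erase hj)]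
  have h1 : Function.update f k 1 k = 1 := by simp
  have h2 := mul_prod_erase (range (k + 1 + r)) (Function.update f k 1)
    (mem_range.2 (show k < k + 1 + r by omega))
  rw [h1, one_mul] at h2
  rw [h0, h2, prod_range_add, prod_range_succ, h1, mul_one]
  congr 1
  · apply prod_congr rfl
    intro j hj
    rw [Function.update_of_ne (mem_range.1 hj).ne]
  · apply prod_congr rfl
    intro j hj
    rw [Function.update_of_ne (by omega)]

theorem kernel {q : K} (hq : q ≠ 0) (hq1 : ∀ e : ℤ, e ≠ 0 → q ^ e ≠ 1) {d n c : ℤ} {N : ℕ}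
    (hd : 0 < d) (hN : 1 + d * N = n * c) {k : ℕ} (hk : k ≤ N) :
    ps q (2 * d * k + 1) * F q d n 0 k * F q d n (-c) k *
      (∏ j ∈ (range (N + 1)).erase k, (om q (d * k) - om q (d * j))) =
    q ^ (n * c * k - (1 + d * k) * N) *
      ((∏ j ∈ range (N + 1), ps q (1 + d * j)) * ∏ i ∈ range N, ps q (-(d * (i + 1)))) := by
  obtain ⟨r, rfl⟩ := Nat.exists_eq_add_of_le hk
  -- F 0
  have hF0 : F q d n 0 k = (∏ j ∈ range k, ps q (1 + d * j)) / ∏ j ∈ range k, ps q (d * (j + 1)) := by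
    unfold F
    rw [← prod_div_distrib]
    apply prod_congr rfl
    intro j _
    simp [ps]
  have hFc : F q d n (-c) k = q ^ (n * c * k) * ((∏ j ∈ range k, ps q (-(d * (r + j + 1)))) /
      ∏ j ∈ range k, ps q (1 + d * ((k + r + 1 + j : ℕ) : ℤ))) := by
    rw [← prod_range_reflect (fun j : ℕ => ps q (-(d * (r + j + 1))))]
    unfold F
    rw [← prod_div_distrib]
    have : q ^ (n * c * k) = ∏ j ∈ range k, q ^ (n * c) := by
      rw [prod_const, card_range, ← zpow_natCast, ← zpow_mul]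
    rw [this, ← prod_mul_distrib]
    apply prod_congr rfl
    intro j hj
    have hj' := mem_range.1 hj
    have e : q ^ (n * -c) - q ^ (d * (j + 1)) = q ^ (n * -c) * ps q (d * (j + 1) + n * c) := by
      unfold ps
      rw [mul_sub, mul_one, ← zpow_add₀ hq]
      congr 2; ring
    have e2 : (1 : ℤ) + d * j + n * -c = -(d * (r + ((k - 1 - j : ℕ) : ℤ) + 1)) := by
      have : ((k - 1 - j : ℕ) : ℤ) = k - 1 - j := by omega
      rw [this]
      push_cast at hN
      linear_combination hN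
    have e3 : (d * (j + 1) + n * c : ℤ) = 1 + d * ((k + r + 1 + j : ℕ) : ℤ) := by
      push_cast at hN ⊢
      linear_combination -hN
    rw [e, e2, e3]
    have e4 : n * -c = -(n * c) := by ring
    rw [e4, zpow_neg]
    have hz : q ^ (n * c) ≠ 0 := zpow_ne_zero _ hq
    field_simp
  have hR : ∏ j ∈ (range (k + r + 1)).erase k, (om q (d * k) - om q (d * j)) =
      q ^ (-((1 + d * k) * ((k + r : ℕ) : ℤ))) *
      ((∏ j ∈ range k, ps q (1 + d * ((k + j : ℕ) : ℤ))) *
        ∏ i ∈ range r, ps q (1 + d * ((k + (k + 1 + i) : ℕ) : ℤ))) *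
      ((∏ j ∈ range k, ps q (d * (j + 1))) * ∏ i ∈ range r, ps q (-(d * (i + 1)))) := by
    have e0 : k + r + 1 = k + 1 + r := by omega
    rw [e0, erase_prod]
    rw [← prod_range_reflect (fun j : ℕ => ps q (d * (j + 1))) k]
    have e1 : ∏ j ∈ range k, (om q (d * k) - om q (d * j)) =
        q ^ (-((1 + d * k) * (k : ℤ))) * ((∏ j ∈ range k, ps q (1 + d * ((k + j : ℕ) : ℤ))) *
          ∏ j ∈ range k, ps q (d * (((k - 1 - j : ℕ) : ℤ) + 1))) := by
      have : q ^ (-((1 + d * k) * (k : ℤ))) = ∏ j ∈ range k, q ^ (-1 - d * k) := by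
        rw [prod_const, card_range, ← zpow_natCast, ← zpow_mul]; congr 1; ring
      rw [this, ← prod_mul_distrib, ← prod_mul_distrib]
      apply prod_congr rfl
      intro j hj
      have hj' := mem_range.1 hj
      rw [om_sub hq, mul_assoc]
      have : ((k - 1 - j : ℕ) : ℤ) = k - 1 - j := by omega
      rw [this]
      congr 3
      · push_cast; ring
      · ring
    have e2 : ∏ i ∈ range r, (om q (d * k) - om q (d * ((k + 1 + i : ℕ) : ℤ))) =
        q ^ (-((1 + d * k) * (r : ℤ))) * ((∏ i ∈ range r, ps q (1 + d * ((k + (k + 1 + i) : ℕ) : ℤ))) *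
          ∏ i ∈ range r, ps q (-(d * (i + 1)))) := by
      have : q ^ (-((1 + d * k) * (r : ℤ))) = ∏ j ∈ range r, q ^ (-1 - d * k) := by
        rw [prod_const, card_range, ← zpow_natCast, ← zpow_mul]; congr 1; ring
      rw [this, ← prod_mul_distrib, ← prod_mul_distrib]
      apply prod_congr rfl
      intro j hj
      have hj' := mem_range.1 hj
      rw [om_sub hq, mul_assoc]
      congr 3
      · push_cast; ring
      · push_cast; ring
    rw [e1, e2]
    have e3 : q ^ (-((1 + d * k) * ((k + r : ℕ) : ℤ))) = q ^ (-((1 + d * k) * (k : ℤ))) *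
        q ^ (-((1 + d * k) * (r : ℤ))) := by
      rw [← zpow_add₀ hq]; congr 1; push_cast; ring
    rw [e3]
    ring
  have hA : (∏ j ∈ range k, ps q (1 + d * j)) * ((∏ j ∈ range k, ps q (1 + d * ((k + j : ℕ) : ℤ))) *
      (ps q (2 * d * k + 1) * ∏ i ∈ range r, ps q (1 + d * ((k + (k + 1 + i) : ℕ) : ℤ)))) =
      (∏ j ∈ range (k + r + 1), ps q (1 + d * j)) *
        ∏ j ∈ range k, ps q (1 + d * ((k + r + 1 + j : ℕ) : ℤ)) := by
    have e1 := prod_range_add (fun j : ℕ => ps q (1 + d * (j : ℤ))) (k + r + 1) k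
    have e2 := prod_range_add (fun j : ℕ => ps q (1 + d * (j : ℤ))) k (k + 1 + r)
    have e3 := prod_range_add (fun j : ℕ => ps q (1 + d * ((k + j : ℕ) : ℤ))) (k + 1) r
    have e4 := prod_range_succ (fun j : ℕ => ps q (1 + d * ((k + j : ℕ) : ℤ))) k
    rw [← e1]
    have e5 : k + r + 1 + k = k + (k + 1 + r) := by omega
    rw [e5, e2, e3, e4]
    have e6 : (1 : ℤ) + d * ((k + k : ℕ) : ℤ) = 2 * d * k + 1 := by push_cast; ring
    rw [e6]
    ring
  have hB : (∏ i ∈ range r, ps q (-(d * (i + 1)))) * ∏ j ∈ range k, ps q (-(d * (r + j + 1))) =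
      ∏ i ∈ range (k + r), ps q (-(d * (i + 1))) := by
    have e1 := prod_range_add (fun i : ℕ => ps q (-(d * (i + 1)))) r k
    rw [add_comm k r, e1]
    push_cast
    rfl
  have n1 : ∏ j ∈ range k, ps q (d * (j + 1)) ≠ 0 := by
    apply prod_ne_zero_iff.2
    intro j _
    exact ps_ne hq1 (by positivity)
  have n2 : ∏ j ∈ range k, ps q (1 + d * ((k + r + 1 + j : ℕ) : ℤ)) ≠ 0 := by
    apply prod_ne_zero_iff.2
    intro j _
    exact ps_ne hq1 (by positivity)
  rw [hF0, hFc, hR, ← hB]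
  have e7 : q ^ (n * c * k - (1 + d * k) * ((k + r : ℕ) : ℤ)) =
      q ^ (n * c * k) * q ^ (-((1 + d * k) * ((k + r : ℕ) : ℤ))) := by
    rw [← zpow_add₀ hq]; congr 1
  rw [e7]
  rw [mul_div_assoc']
  field_simp
  linear_combination (
    (∏ i ∈ range r, ps q (-(d * (i + 1)))) * (∏ j ∈ range k, ps q (-(d * (r + j + 1))))) * hA

end

end Pool.Agent.P8H19.QC
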