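import Mathlib

/-!
# Local expansions in a discrete valuation setting
-/

set_option autoImplicit false

namespace Pool.Agent.P8H19.QC

open Finset

/-- A subring `O` of the field `K` with a residue map `ev` whose kernel is generated by
`q^n - 1`. -/
structure Loc {K L : Type*} [Field K] [Field L] (q : K) (ζ : L) (n : ℕ) where
  O : Subring K
  ev : O →+* L
  hq : q ∈ O
  evq : ev ⟨q, hq⟩ = ζ
  inv : ∀ x : O, ev x ≠ 0 → (x : K)⁻¹ ∈ O
  ker : ∀ x : O, ev x = 0 → ∃ y : O, (x : K) = (q ^ n - 1) * y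

namespace Loc

variable {K L : Type*} [Field K] [Field L] {q : K} {ζ : L} {n : ℕ} (S : Loc q ζ n)

/-- `x` lies in `O` and has residue `z`. -/
def Rs (x : K) (z : L) : Prop := ∃ h : x ∈ S.O, S.ev ⟨x, h⟩ = z

/-- `x` is `ε^j` times an element of `O`. -/
def D (j : ℕ) (x : K) : Prop := ∃ y ∈ S.O, x = (q ^ n - 1) ^ j * y

variable {S}

theorem Rs.mem {x : K} {z : L} (h : S.Rs x z) : x ∈ S.O := h.1

theorem Rs.add {x y : K} {z w : L} (h : S.Rs x z) (h' : S.Rs y w) : S.Rs (x + y) (z + w) := by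
  obtain ⟨h1, h2⟩ := h
  obtain ⟨h3, h4⟩ := h'
  refine ⟨S.O.add_mem h1 h3, ?_⟩
  rw [← h2, ← h4, ← map_add]; rfl

theorem Rs.mul {x y : K} {z w : L} (h : S.Rs x z) (h' : S.Rs y w) : S.Rs (x * y) (z * w) := by
  obtain ⟨h1, h2⟩ := h
  obtain ⟨h3, h4⟩ := h'
  refine ⟨S.O.mul_mem h1 h3, ?_⟩
  rw [← h2, ← h4, ← map_mul]; rfl

theorem Rs.neg {x : K} {z : L} (h : S.Rs x z) : S.Rs (-x) (-z) := by
  obtain ⟨h1, h2⟩ := h
  refine ⟨S.O.neg_mem h1, ?_⟩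
  rw [← h2, ← map_neg]; rfl

theorem Rs.sub {x y : K} {z w : L} (h : S.Rs x z) (h' : S.Rs y w) : S.Rs (x - y) (z - w) := by
  rw [sub_eq_add_neg, sub_eq_add_neg]; exact h.add h'.neg

variable (S) in
theorem Rs_one : S.Rs 1 1 := ⟨S.O.one_mem, map_one S.ev⟩

variable (S) in
theorem Rs_zero : S.Rs 0 0 := ⟨S.O.zero_mem, map_zero S.ev⟩

theorem Rs.of_eq {x y : K} {z w : L} (h : S.Rs x z) (h1 : x = y) (h2 : z = w) : S.Rs y w :=
  h1 ▸ h2 ▸ h

variable (S) in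
theorem Rs_nat (m : ℕ) : S.Rs (m : K) (m : L) := by
  induction m with
  | zero => simpa using S.Rs_zero
  | succ m ih => simpa using ih.add S.Rs_one

theorem Rs.inv {x : K} {z : L} (h : S.Rs x z) (hz : z ≠ 0) : S.Rs x⁻¹ z⁻¹ := by
  obtain ⟨h1, h2⟩ := h
  have h3 := S.inv ⟨x, h1⟩ (by rw [h2]; exact hz)
  refine ⟨h3, ?_⟩
  have hx : x ≠ 0 := by
    rintro rfl
    apply hz
    rw [← h2]
    exact map_zero S.ev
  have : S.ev ⟨x, h1⟩ * S.ev ⟨x⁻¹, h3⟩ = 1 := by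
    rw [← map_mul, ← map_one S.ev]
    congr 1
    apply Subtype.ext
    exact mul_inv_cancel₀ hx
  rw [h2] at this
  exact eq_inv_of_mul_eq_one_right this

theorem Rs.div {x y : K} {z w : L} (h : S.Rs x z) (h' : S.Rs y w) (hw : w ≠ 0) :
    S.Rs (x / y) (z / w) := by
  rw [div_eq_mul_inv, div_eq_mul_inv]; exact h.mul (h'.inv hw)

theorem Rs.ne {x : K} {z : L} (h : S.Rs x z) (hz : z ≠ 0) : x ≠ 0 := by
  rintro rfl
  obtain ⟨h1, h2⟩ := h
  exact hz (h2 ▸ map_zero S.ev)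

theorem Rs.pow {x : K} {z : L} (h : S.Rs x z) (m : ℕ) : S.Rs (x ^ m) (z ^ m) := by
  induction m with
  | zero => simpa using S.Rs_one
  | succ m ih => rw [pow_succ, pow_succ]; exact ih.mul h

theorem Rs.prod {ι : Type*} {s : Finset ι} {f : ι → K} {g : ι → L}
    (h : ∀ i ∈ s, S.Rs (f i) (g i)) : S.Rs (∏ i ∈ s, f i) (∏ i ∈ s, g i) := by
  classical
  induction s using Finset.induction_on with
  | empty => simpa using S.Rs_one
  | insert a s ha ih =>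
    rw [prod_insert ha, prod_insert ha]
    exact (h a (mem_insert_self _ _)).mul (ih fun i hi => h i (mem_insert_of_mem hi))

theorem Rs.sum {ι : Type*} {s : Finset ι} {f : ι → K} {g : ι → L}
    (h : ∀ i ∈ s, S.Rs (f i) (g i)) : S.Rs (∑ i ∈ s, f i) (∑ i ∈ s, g i) := by
  classical
  induction s using Finset.induction_on with
  | empty => simpa using S.Rs_zero
  | insert a s ha ih =>
    rw [sum_insert ha, sum_insert ha]
    exact (h a (mem_insert_self _ _)).add (ih fun i hi => h i (mem_insert_of_mem hi))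

variable (S) in
theorem Rs_q : S.Rs q ζ := ⟨S.hq, S.evq⟩

variable (S) in
theorem Rs_zpow (hζ : ζ ≠ 0) (e : ℤ) : S.Rs (q ^ e) (ζ ^ e) := by
  obtain ⟨m, rfl | rfl⟩ := e.eq_nat_or_neg
  · simpa using S.Rs_q.pow m
  · rw [zpow_neg, zpow_neg, zpow_natCast, zpow_natCast]
    exact (S.Rs_q.pow m).inv (pow_ne_zero _ hζ)

theorem Rs.D1 {x : K} (h : S.Rs x 0) : S.D 1 x := by
  obtain ⟨h1, h2⟩ := h
  obtain ⟨y, hy⟩ := S.ker ⟨x, h1⟩ h2
  exact ⟨y, y.2, by rw [pow_one]; exact hy⟩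

theorem Rs.D0 {x : K} {z : L} (h : S.Rs x z) : S.D 0 x := ⟨x, h.1, by simp⟩

theorem mem_D0 {x : K} (h : x ∈ S.O) : S.D 0 x := ⟨x, h, by simp⟩

theorem mem_Rs {x : K} (h : x ∈ S.O) : ∃ z, S.Rs x z := ⟨_, h, rfl⟩

variable (S) in
theorem eps_mem : q ^ n - 1 ∈ S.O := S.O.sub_mem (S.O.pow_mem S.hq n) S.O.one_mem

theorem D.add {j : ℕ} {x y : K} (h : S.D j x) (h' : S.D j y) : S.D j (x + y) := by
  obtain ⟨a, ha, rfl⟩ := h
  obtain ⟨b, hb, rfl⟩ := h'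
  exact ⟨a + b, S.O.add_mem ha hb, by ring⟩

theorem D.neg {j : ℕ} {x : K} (h : S.D j x) : S.D j (-x) := by
  obtain ⟨a, ha, rfl⟩ := h
  exact ⟨-a, S.O.neg_mem ha, by ring⟩

theorem D.sub {j : ℕ} {x y : K} (h : S.D j x) (h' : S.D j y) : S.D j (x - y) := by
  rw [sub_eq_add_neg]; exact h.add h'.neg

theorem D.mul {i j : ℕ} {x y : K} (h : S.D i x) (h' : S.D j y) : S.D (i + j) (x * y) := by
  obtain ⟨a, ha, rfl⟩ := h
  obtain ⟨b, hb, rfl⟩ := h'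
  exact ⟨a * b, S.O.mul_mem ha hb, by ring⟩

theorem D.mul_mem {i : ℕ} {x y : K} (h : S.D i x) (h' : y ∈ S.O) : S.D i (x * y) := by
  simpa using h.mul (mem_D0 h')

theorem D.mem_mul {i : ℕ} {x y : K} (h : S.D i x) (h' : y ∈ S.O) : S.D i (y * x) := by
  rw [mul_comm]; exact h.mul_mem h'

theorem D.pow {i : ℕ} {x : K} (h : S.D i x) (m : ℕ) : S.D (i * m) (x ^ m) := by
  obtain ⟨a, ha, rfl⟩ := h
  exact ⟨a ^ m, S.O.pow_mem ha m, by rw [mul_pow, pow_mul]⟩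

variable (S) in
theorem D_zero (j : ℕ) : S.D j 0 := ⟨0, S.O.zero_mem, by simp⟩

variable (S) in
theorem D_eps (j : ℕ) : S.D j ((q ^ n - 1) ^ j) := ⟨1, S.O.one_mem, by simp⟩

theorem D.mono {i j : ℕ} {x : K} (h : S.D i x) (hij : j ≤ i) : S.D j x := by
  obtain ⟨a, ha, rfl⟩ := h
  refine ⟨(q ^ n - 1) ^ (i - j) * a, S.O.mul_mem (S.O.pow_mem S.eps_mem _) ha, ?_⟩
  rw [← mul_assoc, ← pow_add]
  congr 2; omega

theorem D.mem {i : ℕ} {x : K} (h : S.D i x) : x ∈ S.O := by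
  obtain ⟨a, ha, rfl⟩ := h
  exact S.O.mul_mem (S.O.pow_mem S.eps_mem _) ha

theorem D.sum {ι : Type*} {s : Finset ι} {f : ι → K} {j : ℕ}
    (h : ∀ i ∈ s, S.D j (f i)) : S.D j (∑ i ∈ s, f i) := by
  classical
  induction s using Finset.induction_on with
  | empty => simpa using S.D_zero j
  | insert a s ha ih =>
    rw [sum_insert ha]
    exact (h a (mem_insert_self _ _)).add (ih fun i hi => h i (mem_insert_of_mem hi))

theorem D.of_eq {j : ℕ} {x y : K} (h : S.D j x) (h1 : x = y) : S.D j y := h1 ▸ h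

/-- the residue of `ε` is zero -/
theorem Rs_eps (hζ : ζ ^ n = 1) : S.Rs (q ^ n - 1) 0 :=
  ((S.Rs_q.pow n).sub S.Rs_one).of_eq rfl (by rw [hζ, sub_self])

theorem D.Rs {x : K} (hζ : ζ ^ n = 1) (h : S.D 1 x) : S.Rs x 0 := by
  obtain ⟨a, ha, rfl⟩ := h
  obtain ⟨z, hz⟩ := mem_Rs ha
  exact (((Rs_eps hζ).pow 1).mul hz).of_eq rfl (by simp)

end Loc

end Pool.Agent.P8H19.QC
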