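import Pool.Agent.P8H19.QC.Asm

set_option autoImplicit false
set_option linter.unusedSectionVars false

namespace Pool.Agent.P8H19.QC

open Finset

section
variable {L : Type*} [Field L] [CharZero L]

theorem rev_sum {T χ : ℕ → L} {N : ℕ} (hT : ∀ k ≤ N, T (N - k) = -T k)
    (hχ : ∀ j < N, χ (N - 1 - j) = -χ j) :
    ∑ k ∈ range (N + 1), T k * ∑ j ∈ range k, χ j = 0 := by
  have hX : ∀ k ≤ N, ∑ j ∈ range (N - k), χ j = ∑ j ∈ range N, χ j + ∑ j ∈ range k, χ j := by
    intro k hk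
    have h1 : ∑ j ∈ range N, χ j = ∑ j ∈ range (N - k), χ j + ∑ j ∈ range k, χ (N - k + j) := by
      rw [← sum_range_add, Nat.sub_add_cancel hk]
    have h2 : ∑ j ∈ range k, χ (N - k + j) = -∑ j ∈ range k, χ j := by
      rw [← sum_range_reflect, ← sum_neg_distrib]
      apply sum_congr rfl
      intro j hj
      have hj' := mem_range.1 hj
      rw [← hχ j (by omega)]
      congr 1; omega
    rw [h1, h2]; ring
  have hr : ∀ f : ℕ → L, ∑ k ∈ range (N + 1), f k = ∑ k ∈ range (N + 1), f (N - k) := by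
    intro f
    rw [← sum_range_reflect]
    apply sum_congr rfl
    intro j _
    congr 1
  have hT0 : ∑ k ∈ range (N + 1), T k = 0 := by
    have h := hr T
    rw [sum_congr rfl (g := fun k => -T k)
      (fun k hk => hT k (Nat.lt_succ_iff.1 (mem_range.1 hk))), sum_neg_distrib] at h
    exact self_eq_neg.1 h
  have h := hr (fun k => T k * ∑ j ∈ range k, χ j)
  have h3 : ∑ k ∈ range (N + 1), T (N - k) * ∑ j ∈ range (N - k), χ j =
      -((∑ j ∈ range N, χ j) * ∑ k ∈ range (N + 1), T k) -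
        ∑ k ∈ range (N + 1), T k * ∑ j ∈ range k, χ j := by
    rw [mul_sum, ← sum_neg_distrib, ← sum_sub_distrib]
    apply sum_congr rfl
    intro k hk
    have hk' := Nat.lt_succ_iff.1 (mem_range.1 hk)
    rw [hT k hk', hX k hk']
    ring
  have h' : ∑ k ∈ range (N + 1), T k * ∑ j ∈ range k, χ j =
      ∑ k ∈ range (N + 1), T (N - k) * ∑ j ∈ range (N - k), χ j := h
  rw [h3, hT0, mul_zero, neg_zero, zero_sub] at h'
  exact self_eq_neg.1 h'

open Loc

theorem rev_al {ζ : L} {n : ℕ} (hζ : IsPrimitiveRoot ζ n) (hn : n ≠ 0) {d c : ℤ} {N : ℕ}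
    (hN : 1 + d * N = n * c)
    (h1 : ∀ j : ℕ, j < N → ¬ (n : ℤ) ∣ 1 + d * j)
    (h2 : ∀ j : ℕ, j < N → ¬ (n : ℤ) ∣ d * (j + 1)) {k : ℕ} (hk : k ≤ N) :
    al ζ d (N - k) = (-1) ^ N * ζ ^ (-(d * ∑ j ∈ range N, ((j : ℤ) + 1)) + (d - 1) * k) *
      al ζ d k := by
  have hζ0 := hζ.ne_zero hn
  have hnc : ζ ^ ((n : ℤ) * c) = 1 := by
    rw [zpow_mul, zpow_natCast, hζ.pow_eq_one, one_zpow]
  have hu : ∀ j < N, ζ ^ (1 + d * ((N - 1 - j : ℕ) : ℤ)) = (ζ ^ (d * ((j : ℤ) + 1)))⁻¹ := by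
    intro j hj
    have e : ((N - 1 - j : ℕ) : ℤ) = N - 1 - j := by omega
    rw [e]
    have : (1 : ℤ) + d * (N - 1 - j) = n * c + -(d * (j + 1)) := by linear_combination hN
    rw [this, zpow_add₀ hζ0, hnc, one_mul, zpow_neg]
  have hv : ∀ j < N, ζ ^ (d * (((N - 1 - j : ℕ) : ℤ) + 1)) = (ζ ^ (1 + d * (j : ℤ)))⁻¹ := by
    intro j hj
    have e : ((N - 1 - j : ℕ) : ℤ) = N - 1 - j := by omega
    rw [e]
    have : d * ((N : ℤ) - 1 - j + 1) = n * c + -(1 + d * j) := by linear_combination hN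
    rw [this, zpow_add₀ hζ0, hnc, one_mul, zpow_neg]
  have hN1 : al ζ d N = (-1) ^ N * ζ ^ (-(d * ∑ j ∈ range N, ((j : ℤ) + 1))) := by
    unfold al
    rw [prod_div_distrib]
    have e1 : ∏ j ∈ range N, (1 - ζ ^ (1 + d * (j : ℤ))) =
        ((-1) ^ N * ζ ^ (-(d * ∑ j ∈ range N, ((j : ℤ) + 1)))) *
          ∏ j ∈ range N, (1 - ζ ^ (d * ((j : ℤ) + 1))) := by
      rw [← prod_range_reflect]
      have e2 : ((-1 : L) ^ N * ζ ^ (-(d * ∑ j ∈ range N, ((j : ℤ) + 1)))) =
          ∏ j ∈ range N, (-(ζ ^ (d * ((j : ℤ) + 1)))⁻¹) := by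
        clear hN h1 h2 hk hu hv
        induction N with
        | zero => simp
        | succ N ih =>
          rw [prod_range_succ, ← ih, sum_range_succ, pow_succ]
          have : -(d * ((∑ x ∈ range N, ((x : ℤ) + 1)) + ((N : ℤ) + 1))) =
              -(d * ∑ x ∈ range N, ((x : ℤ) + 1)) + -(d * ((N : ℤ) + 1)) := by ring
          rw [this, zpow_add₀ hζ0, zpow_neg ζ (d * ((N : ℤ) + 1))]
          ring
      rw [e2, ← prod_mul_distrib]
      apply prod_congr rfl
      intro j hj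
      have hj' := mem_range.1 hj
      rw [hu j hj']
      have hz : ζ ^ (d * ((j : ℤ) + 1)) ≠ 0 := zpow_ne_zero _ hζ0
      field_simp
      ring
    have e3 : ∏ j ∈ range N, (1 - ζ ^ (d * ((j : ℤ) + 1))) ≠ 0 := by
      apply prod_ne_zero_iff.2
      intro j hj
      exact one_sub_ne hζ (h2 j (mem_range.1 hj))
    rw [e1, mul_div_assoc, div_self e3, mul_one]
  have hsplit : al ζ d N = al ζ d (N - k) * (ζ ^ ((1 - d) * k) * (al ζ d k)⁻¹) := by
    have e1 : al ζ d N = al ζ d (N - k) *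
        ∏ i ∈ range k, (1 - ζ ^ (1 + d * ((N - k + i : ℕ) : ℤ))) /
          (1 - ζ ^ (d * (((N - k + i : ℕ) : ℤ) + 1))) := by
      unfold al
      rw [← prod_range_add (fun j : ℕ => (1 - ζ ^ (1 + d * (j : ℤ))) / (1 - ζ ^ (d * ((j : ℤ) + 1)))),
        Nat.sub_add_cancel hk]
    rw [e1]
    congr 1
    rw [← prod_range_reflect]
    have e2 : ζ ^ ((1 - d) * k) = ∏ j ∈ range k, ζ ^ (1 - d) := by
      rw [prod_const, card_range, ← zpow_natCast, ← zpow_mul]
    rw [e2]
    unfold al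
    rw [← prod_inv_distrib, ← prod_mul_distrib]
    apply prod_congr rfl
    intro j hj
    have hj' := mem_range.1 hj
    have e3 : N - k + (k - 1 - j) = N - 1 - j := by omega
    rw [e3, hu j (by omega), hv j (by omega)]
    have n1 := one_sub_ne hζ (h1 j (by omega))
    have n2 := one_sub_ne hζ (h2 j (by omega))
    have z1 : ζ ^ (d * ((j : ℤ) + 1)) ≠ 0 := zpow_ne_zero _ hζ0
    have z2 : ζ ^ (1 + d * (j : ℤ)) ≠ 0 := zpow_ne_zero _ hζ0
    have e4 : ζ ^ (1 - d) = ζ ^ (1 + d * (j : ℤ)) / ζ ^ (d * ((j : ℤ) + 1)) := by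
      rw [← zpow_sub₀ hζ0]; congr 1; ring
    rw [e4, inv_div]
    have n1' : ζ ^ (1 + d * (j : ℤ)) - 1 ≠ 0 := by
      intro h; apply n1; linear_combination -h
    have n3 : 1 - (ζ ^ (1 + d * (j : ℤ)))⁻¹ ≠ 0 := by
      intro h
      apply n1'
      field_simp at h
      simpa using h
    rw [div_eq_iff n3]
    field_simp
    ring
  have hak : al ζ d k ≠ 0 := al_ne hζ (fun j hj => h1 j (by omega)) (fun j hj => h2 j (by omega))
  have hz : ζ ^ ((1 - d) * k) ≠ 0 := zpow_ne_zero _ hζ0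
  have h3 : al ζ d (N - k) = al ζ d N * al ζ d k * ζ ^ ((d - 1) * k) := by
    rw [hsplit]
    have : ζ ^ ((d - 1) * k) = (ζ ^ ((1 - d) * k))⁻¹ := by
      rw [← zpow_neg]; congr 1; ring
    rw [this]
    field_simp
  rw [h3, hN1, zpow_add₀ hζ0]
  ring

theorem rev_zero {ζ : L} {n : ℕ} (hζ : IsPrimitiveRoot ζ n) (hn : n ≠ 0) {d c : ℤ} {N r : ℕ}
    (hd : d = 2 * r + 3) (hc : c = 2 * r + 1)
    (hN : 1 + d * N = n * c)
    (h1 : ∀ j : ℕ, j < N → ¬ (n : ℤ) ∣ 1 + d * j)
    (h2 : ∀ j : ℕ, j < N → ¬ (n : ℤ) ∣ d * (j + 1)) :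
    ∑ k ∈ range (N + 1), Th ζ d r k * cs ζ d k = 0 := by
  have hζ0 := hζ.ne_zero hn
  have hnc : ζ ^ ((n : ℤ) * c) = 1 := by
    rw [zpow_mul, zpow_natCast, hζ.pow_eq_one, one_zpow]
  unfold cs
  apply rev_sum
  · intro k hk
    unfold Th
    rw [rev_al hζ hn hN h1 h2 hk]
    set G : ℤ := ∑ j ∈ range N, ((j : ℤ) + 1) with hG
    have hG2 : 2 * G = N * (N + 1) := by
      rw [hG]
      clear_value G
      clear hN h1 h2 hk hG
      induction N with
      | zero => simp
      | succ N ih => rw [sum_range_succ, mul_add, ih]; push_cast; ring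
    have e0 : ((N - k : ℕ) : ℤ) = N - k := by omega
    rw [e0]
    have e1 : 1 - ζ ^ (2 * d * ((N : ℤ) - k) + 1) =
        -ζ ^ (-(2 * d * k + 1)) * (1 - ζ ^ (2 * d * k + 1)) := by
      have h3 : (2 * d * ((N : ℤ) - k) + 1 : ℤ) = n * c + n * c + -(2 * d * k + 1) := by
        linear_combination 2 * hN
      rw [h3, zpow_add₀ hζ0, zpow_add₀ hζ0, hnc, zpow_neg]
      have hz : ζ ^ (2 * d * k + 1) ≠ 0 := zpow_ne_zero _ hζ0
      field_simp
      ring
    rw [e1, mul_pow, mul_pow, ← pow_mul, ← zpow_natCast (ζ ^ (-(d * G) + (d - 1) * k)), ← zpow_mul]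
    -- the constant
    have hconst : (-1 : L) ^ (N * (2 * r + 3)) * (ζ ^ (-(2 * d * k + 1)) * ζ ^ (d * r * ((N : ℤ) - k)) *
        ζ ^ ((-(d * G) + (d - 1) * k) * ((2 * r + 3 : ℕ) : ℤ))) = ζ ^ (d * r * k) := by
      have e2 : ζ ^ (-(2 * d * k + 1)) * ζ ^ (d * r * ((N : ℤ) - k)) *
        ζ ^ ((-(d * G) + (d - 1) * k) * ((2 * r + 3 : ℕ) : ℤ)) =
          ζ ^ (-1 + d * r * N - d ^ 2 * G) * ζ ^ (d * r * k) := by
        rw [← zpow_add₀ hζ0, ← zpow_add₀ hζ0, ← zpow_add₀ hζ0]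
        congr 1
        push_cast
        rw [hd]
        ring
      rw [e2, ← mul_assoc]
      have e3 : 2 * (-1 + d * r * N - d ^ 2 * G) = -(n * c * (n * c + 1)) := by
        have : 2 * (-1 + d * r * N - d ^ 2 * G) = -2 + 2 * d * r * N - d ^ 2 * (2 * G) := by ring
        rw [this, hG2, ← hN, hd]
        ring
      have e4 : (-1 : L) ^ (N * (2 * r + 3)) * ζ ^ (-1 + d * r * N - d ^ 2 * G) = 1 := by
        rcases Nat.even_or_odd n with ⟨n', hn'⟩ | ⟨n', hn'⟩
        · have hNodd : Odd N := by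
            have h5 : 1 + (2 * r + 3) * N = n * (2 * r + 1) := by
              have := hN
              rw [hd, hc] at this
              exact_mod_cast this
            by_contra hNe
            rw [Nat.not_odd_iff_even] at hNe
            have h6 : Even ((2 * r + 3) * N) := hNe.mul_left _
            have h7 : Even (n * (2 * r + 1)) := Even.mul_right ⟨n', hn'⟩ _
            rw [← h5] at h7
            obtain ⟨a, ha⟩ := h6
            obtain ⟨b, hb⟩ := h7
            omega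
          have hm1 : ζ ^ n' = -1 := by
            have h5 : ζ ^ n' * ζ ^ n' = 1 := by
              rw [← pow_add, ← hn', hζ.pow_eq_one]
            rcases mul_self_eq_one_iff.1 h5 with h6 | h6
            · exfalso
              have := (hζ.pow_eq_one_iff_dvd n').1 h6
              have := Nat.le_of_dvd (by omega) this
              omega
            · exact h6
          have e5 : (-1 + d * r * N - d ^ 2 * G : ℤ) = (n' : ℤ) * (-(c * (n * c + 1))) := by
            have : (n : ℤ) = n' + n' := by exact_mod_cast hn'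
            have h6 : 2 * (-1 + d * r * N - d ^ 2 * G) = 2 * ((n' : ℤ) * (-(c * (n * c + 1)))) := by
              rw [e3]
              linear_combination (-(c * (n * c + 1))) * this
            omega
          have hodd : Odd (-(c * ((n : ℤ) * c + 1))) := by
            apply Odd.neg
            apply Odd.mul
            · rw [hc]; exact ⟨r, rfl⟩
            · refine ⟨n' * c, ?_⟩
              have : (n : ℤ) = n' + n' := by exact_mod_cast hn'
              rw [this]; ring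
          rw [e5, zpow_mul, zpow_natCast, hm1, hodd.neg_one_zpow]
          have : Odd (N * (2 * r + 3)) := hNodd.mul ⟨r + 1, by ring⟩
          rw [this.neg_one_pow]
          norm_num
        · have hNev : Even N := by
            have h5 : 1 + (2 * r + 3) * N = n * (2 * r + 1) := by
              have := hN
              rw [hd, hc] at this
              exact_mod_cast this
            by_contra hNe
            rw [Nat.not_even_iff_odd] at hNe
            have h6 : Odd ((2 * r + 3) * N) := Odd.mul ⟨r + 1, by ring⟩ hNe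
            have h7 : Odd (n * (2 * r + 1)) := Odd.mul ⟨n', hn'⟩ ⟨r, rfl⟩
            rw [← h5] at h7
            obtain ⟨a, ha⟩ := h6
            obtain ⟨b, hb⟩ := h7
            omega
          obtain ⟨w, hw⟩ : ∃ w : ℤ, (n : ℤ) * c + 1 = 2 * w := by
            refine ⟨n' * c + r + 1, ?_⟩
            have : (n : ℤ) = 2 * n' + 1 := by exact_mod_cast hn'
            rw [this, hc]; ring
          have e5 : (-1 + d * r * N - d ^ 2 * G : ℤ) = (n : ℤ) * (-(c * w)) := by
            have h6 : 2 * (-1 + d * r * N - d ^ 2 * G) = 2 * ((n : ℤ) * (-(c * w))) := by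
              rw [e3, hw]; ring
            omega
          rw [e5, zpow_mul, zpow_natCast, hζ.pow_eq_one, one_zpow, mul_one]
          exact (hNev.mul_right _).neg_one_pow
      rw [e4, one_mul]
    linear_combination (-(1 - ζ ^ (2 * d * k + 1)) * al ζ d k ^ (2 * r + 3)) * hconst
  · intro j hj
    have e0 : ((N - 1 - j : ℕ) : ℤ) = N - 1 - j := by omega
    rw [e0]
    have hu : ζ ^ (1 + d * ((N : ℤ) - 1 - j)) = (ζ ^ (d * ((j : ℤ) + 1)))⁻¹ := by
      have : (1 : ℤ) + d * (N - 1 - j) = n * c + -(d * (j + 1)) := by linear_combination hN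
      rw [this, zpow_add₀ hζ0, hnc, one_mul, zpow_neg]
    have hv : ζ ^ (d * ((N : ℤ) - 1 - j + 1)) = (ζ ^ (1 + d * (j : ℤ)))⁻¹ := by
      have : d * ((N : ℤ) - 1 - j + 1) = n * c + -(1 + d * j) := by linear_combination hN
      rw [this, zpow_add₀ hζ0, hnc, one_mul, zpow_neg]
    rw [hu, hv]
    have n1 := one_sub_ne hζ (h1 j hj)
    have n2 := one_sub_ne hζ (h2 j hj)
    have z1 : ζ ^ (d * ((j : ℤ) + 1)) ≠ 0 := zpow_ne_zero _ hζ0
    have z2 : ζ ^ (1 + d * (j : ℤ)) ≠ 0 := zpow_ne_zero _ hζ0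
    have n1' : ζ ^ (1 + d * (j : ℤ)) - 1 ≠ 0 := by
      intro h; apply n1; linear_combination -h
    have n2' : ζ ^ (d * ((j : ℤ) + 1)) - 1 ≠ 0 := by
      intro h; apply n2; linear_combination -h
    have a1 : -(ζ ^ (d * ((j : ℤ) + 1)))⁻¹ / (1 - (ζ ^ (d * ((j : ℤ) + 1)))⁻¹) =
        1 / (1 - ζ ^ (d * ((j : ℤ) + 1))) := by
      have : 1 - (ζ ^ (d * ((j : ℤ) + 1)))⁻¹ = (ζ ^ (d * ((j : ℤ) + 1)) - 1) * (ζ ^ (d * ((j : ℤ) + 1)))⁻¹ := by
        field_simp
      rw [this, neg_div, div_mul_cancel_right₀ (inv_ne_zero z1), one_div, neg_inv]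
      congr 1
      ring
    have a2 : 1 / (1 - (ζ ^ (1 + d * (j : ℤ)))⁻¹) = -ζ ^ (1 + d * (j : ℤ)) / (1 - ζ ^ (1 + d * (j : ℤ))) := by
      have : 1 - (ζ ^ (1 + d * (j : ℤ)))⁻¹ = (ζ ^ (1 + d * (j : ℤ)) - 1) * (ζ ^ (1 + d * (j : ℤ)))⁻¹ := by
        field_simp
      rw [this, one_div, mul_inv, inv_inv, div_eq_mul_inv, ← neg_sub (1 : L), ← neg_inv]
      ring
    rw [a1, a2]
    ring

end

end Pool.Agent.P8H19.QC
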