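import Pool.Agent.P8H19.QC.Ker

set_option autoImplicit false

namespace Pool.Agent.P8H19.QC

open Finset Polynomial

section
variable {K : Type*} [Field K]

theorem om_inj {q : K} (hq : q ≠ 0) (hq1 : ∀ e : ℤ, e ≠ 0 → q ^ e ≠ 1) {d : ℤ} (hd : 0 < d)
    {k j : ℕ} (h : om q (d * k) = om q (d * j)) : k = j := by
  have h1 := om_sub hq (d * k) (d * j)
  rw [h, sub_self] at h1
  have h2 : ps q (1 + d * k + d * j) ≠ 0 := ps_ne hq1 (by positivity)
  have h3 : ps q (d * k - d * j) = 0 := by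
    by_contra h3
    exact mul_ne_zero (mul_ne_zero (zpow_ne_zero _ hq) h2) h3 h1.symm
  by_contra hkj
  apply ps_ne hq1 _ h3
  have : (d * k - d * j : ℤ) = d * (k - j) := by ring
  rw [this]
  apply mul_ne_zero hd.ne'
  intro h4
  apply hkj
  omega

theorem vanish {q : K} (hq : q ≠ 0) (hq1 : ∀ e : ℤ, e ≠ 0 → q ^ e ≠ 1) {d n c t0 s u : ℤ}
    {N m μ r : ℕ} (hr : 1 ≤ r) (hd : d = 2 * r + 3) (hN : 1 + d * N = n * c)
    (hs : n * s + 1 = d * (m + 1)) (ht0 : 2 * (n * t0) + 1 = d * (2 * μ + 1))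
    (hc : c = t0 + r * s) (hdeg : μ + r * m + r = N)
    (h0 : ∀ i : ℤ, -m ≤ i → 1 + n * 0 + d * i ≠ 0)
    (h0' : ∀ i : ℤ, -m ≤ i → 1 + n * s + d * i ≠ 0)
    (hu : ∀ i : ℤ, -m ≤ i → 1 + n * u + d * i ≠ 0)
    (hu' : ∀ i : ℤ, -m ≤ i → 1 + n * (s - u) + d * i ≠ 0)
    (ht : ∀ i : ℤ, -(2 * μ) ≤ i → 1 + n * t0 + d * i ≠ 0) :
    ∑ k ∈ range (N + 1), ps q (2 * d * k + 1) * q ^ (d * r * k) * F q d n 0 k * F q d n (-c) k *
      F q d n t0 k * (F q d n 0 k * F q d n s k) ^ (r - 1) * (F q d n u k * F q d n (s - u) k) = 0 := by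
  have hd0 : 0 < d := by omega
  set G0 : K[X] := ∏ j ∈ range μ, (X - C (om q (n * t0 - d * (1 + j)))) with hG0
  set G1 : K[X] := ∏ j ∈ range m, (X - C (om q (n * 0 - d * (1 + j)))) with hG1
  set G2 : K[X] := ∏ j ∈ range m, (X - C (om q (n * u - d * (1 + j)))) with hG2
  have hmon : ∀ (M : ℕ) (f : ℕ → K), (∏ j ∈ range M, (X - C (f j))).natDegree = M := by
    intro M f
    rw [natDegree_prod_of_monic _ _ (fun j _ => monic_X_sub_C _)]
    simp
  have hdegG : (G0 * G1 ^ (r - 1) * G2).natDegree < N := by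
    have h1 : (G0 * G1 ^ (r - 1) * G2).natDegree ≤ μ + (r - 1) * m + m := by
      refine natDegree_mul_le.trans (add_le_add (natDegree_mul_le.trans (add_le_add ?_ ?_)) ?_)
      · rw [hG0, hmon]
      · refine natDegree_pow_le.trans ?_
        rw [hG1, hmon]
      · rw [hG2, hmon]
    have h2 : (r - 1) * m + m = r * m := by
      obtain ⟨r', rfl⟩ := Nat.exists_eq_add_of_le hr
      simp only [Nat.add_sub_cancel_left]; ring
    omega
  have hLag := Lagrange.coeff_eq_sum (s := range (N + 1)) (v := fun k : ℕ => om q (d * k))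
    (P := G0 * G1 ^ (r - 1) * G2)
    (fun a _ b _ hab => om_inj hq hq1 hd0 hab)
    (by
      rw [card_range]
      refine lt_of_le_of_lt degree_le_natDegree ?_
      exact_mod_cast (by omega : (G0 * G1 ^ (r - 1) * G2).natDegree < N + 1))
  rw [card_range, Nat.add_sub_cancel, coeff_eq_zero_of_natDegree_lt hdegG] at hLag
  set C0 : K := (∏ j ∈ range (N + 1), ps q (1 + d * j)) * ∏ i ∈ range N, ps q (-(d * (i + 1)))
    with hC0
  set A0 : K := (∏ j ∈ range (μ + μ), ps q (1 + n * t0 - d * (1 + j)))⁻¹ with hA0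
  set A1 : K := (∏ j ∈ range m, (ps q (1 + n * 0 - d * (1 + j)) * ps q (1 + n * s - d * (1 + j))))⁻¹
    with hA1
  set A2 : K := (∏ j ∈ range m, (ps q (1 + n * u - d * (1 + j)) *
    ps q (1 + n * (s - u) - d * (1 + j))))⁻¹ with hA2
  have key : ∀ k ∈ range (N + 1),
      ps q (2 * d * k + 1) * q ^ (d * r * k) * F q d n 0 k * F q d n (-c) k *
      F q d n t0 k * (F q d n 0 k * F q d n s k) ^ (r - 1) * (F q d n u k * F q d n (s - u) k) =
      (q ^ (-(r : ℤ)) * C0 * A0 * A1 ^ (r - 1) * A2) * ((G0 * G1 ^ (r - 1) * G2).eval (om q (d * k)) /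
        ∏ j ∈ (range (N + 1)).erase k, (om q (d * k) - om q (d * j))) := by
    intro k hk
    have hk' : k ≤ N := Nat.lt_succ_iff.1 (mem_range.1 hk)
    have k1 := kernel hq hq1 hd0 hN hk'
    have k2 := single hq hq1 ht0 ht k
    have k3 := pair hq hq1 (d := d) (n := n) (t := 0) (t' := s) (m := m)
      (by rw [zero_add]; exact hs) h0 h0' k
    have k4 := pair hq hq1 (d := d) (n := n) (t := u) (t' := s - u) (m := m)
      (by rw [add_sub_cancel]; exact hs) hu hu' k
    rw [zero_add] at k3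
    rw [add_sub_cancel] at k4
    have hne : ∏ j ∈ (range (N + 1)).erase k, (om q (d * k) - om q (d * j)) ≠ 0 := by
      apply prod_ne_zero_iff.2
      intro j hj h
      apply ne_of_mem_erase hj
      exact (om_inj hq hq1 hd0 (sub_eq_zero.1 h)).symm
    rw [eq_comm, mul_div_assoc', div_eq_iff hne]
    rw [k2, k3, k4]
    have hev : (G0 * G1 ^ (r - 1) * G2).eval (om q (d * k)) =
        (∏ j ∈ range μ, (om q (d * k) - om q (n * t0 - d * (1 + j)))) *
        (∏ j ∈ range m, (om q (d * k) - om q (n * 0 - d * (1 + j)))) ^ (r - 1) *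
        (∏ j ∈ range m, (om q (d * k) - om q (n * u - d * (1 + j)))) := by
      rw [hG0, hG1, hG2]
      simp [eval_prod]
    rw [hev, ← hA0, ← hA1, ← hA2]
    rw [← hC0] at k1
    have hpw : q ^ (-(r : ℤ)) = q ^ (d * r * k) * q ^ (n * c * k - (1 + d * k) * N) *
        q ^ (-(n * t0) * k + (1 + d * k) * μ) * (q ^ (-(n * s) * k + (1 + d * k) * m)) ^ (r - 1) *
        q ^ (-(n * s) * k + (1 + d * k) * m) := by
      rw [← zpow_natCast (q ^ (-(n * s) * k + (1 + d * k) * m)), ← zpow_mul,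
        ← zpow_add₀ hq, ← zpow_add₀ hq, ← zpow_add₀ hq, ← zpow_add₀ hq]
      congr 1
      have : ((r - 1 : ℕ) : ℤ) = r - 1 := by omega
      rw [this, hc]
      have hdeg' : (μ : ℤ) + r * m + r = N := by exact_mod_cast hdeg
      linear_combination (-(1 + d * k)) * hdeg'
    rw [hpw]
    linear_combination (-(q ^ (d * r * k) * A0 * A1 ^ (r - 1) * A2 *
        q ^ (-(n * t0) * k + (1 + d * k) * μ) * (q ^ (-(n * s) * k + (1 + d * k) * m)) ^ (r - 1) *
        q ^ (-(n * s) * k + (1 + d * k) * m) *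
        ((∏ j ∈ range μ, (om q (d * k) - om q (n * t0 - d * (1 + j)))) *
        (∏ j ∈ range m, (om q (d * k) - om q (n * 0 - d * (1 + j)))) ^ (r - 1) *
        (∏ j ∈ range m, (om q (d * k) - om q (n * u - d * (1 + j))))))) * k1
  rw [sum_congr rfl key, ← mul_sum, ← hLag, mul_zero]

end

end Pool.Agent.P8H19.QC
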